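import Pool.Agent.Y316.EV.Stm

set_option autoImplicit false

/-!
# Statements of the steps: the Bernoulli action
-/

namespace Pool.Agent.Y316.EV

open MeasureTheory Set Filter Topology Pool.Agent.Y316.PC
open scoped ENNReal NNReal

/-- The shift of `Γ` on `K` (a Bernoulli shift) is ergodic and essentially free. -/
def S_BERN : Prop :=
  ∀ (Γ : Type) [Group Γ] [Countable Γ] [Infinite Γ],
    (∀ A : Set (KK Γ), MeasurableSet A → (∀ γ : Γ, sh γ ⁻¹' A =ᵐ[haarK Γ] A) →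
      haarK Γ A = 0 ∨ haarK Γ A = 1) ∧
    ∀ᵐ ω ∂(haarK Γ), ∀ γ : Γ, sh γ ω = ω → γ = 1

/-- The maps `(k, v) ↦ (k, κ_a(v))` are models of the Bernoulli action. -/
def S_MODEL : Prop :=
  ∀ (Γ : Type) [Group Γ] [Countable Γ] [Infinite Γ]
    (V : ℕ → Type) [∀ n, MulAction Γ (V n)] [∀ n, Finite (V n)] [∀ n, Nonempty (V n)]
    [∀ n, MeasurableSpace (V n)] [∀ n, DiscreteMeasurableSpace (V n)]
    (F : ℕ → Finset Γ), Monotone F → (∀ γ, ∃ n, γ ∈ F n) →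
    (∀ n, ({v : V n | ¬ InjOn (fun γ : Γ => γ • v) (F n)}.ncard : ℝ) ≤
      (1 / ((n : ℝ) + 1)) * Nat.card (V n)) →
    ∀ μ : ProbabilityMeasure (KK Γ × KK Γ), (μ : Measure (KK Γ × KK Γ)) =
      (haarK Γ).prod (haarK Γ) →
    ∀ O : Set (ProbabilityMeasure (KK Γ × KK Γ)), IsOpen O → μ ∈ O →
    ∀ᶠ n in atTop, ∃ (m : ℕ) (a : V n → Fin m → ZMod 2), ∃ κ ∈ O,
      (κ : Measure (KK Γ × KK Γ)) =
        (vol Γ (V n) univ)⁻¹ • (vol Γ (V n)).map (fun p => (p.1, (kap a p.2 : KK Γ)))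

/-- There is an essentially free ergodic action of entropy different from `-∞`. -/
def S_BIG : Prop :=
  ∀ (Γ : Type) [Group Γ] [Countable Γ] [Infinite Γ] [TopologicalSpace Γ] [DiscreteTopology Γ]
    (V : ℕ → Type) [∀ n, MulAction Γ (V n)] [∀ n, Finite (V n)] [∀ n, Nonempty (V n)]
    [∀ n, TopologicalSpace (V n)] [∀ n, DiscreteTopology (V n)]
    [∀ n, MeasurableSpace (V n)] [∀ n, DiscreteMeasurableSpace (V n)]
    (F : ℕ → Finset Γ), Monotone F → (∀ γ, ∃ n, γ ∈ F n) →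
    (∀ n, ({v : V n | ¬ InjOn (fun γ : Γ => γ • v) (F n)}.ncard : ℝ) ≤
      (1 / ((n : ℝ) + 1)) * Nat.card (V n)) →
    ∃ (X : Type) (_ : TopologicalSpace X) (_ : PolishSpace X) (_ : MeasurableSpace X)
      (_ : BorelSpace X) (_ : MulAction (GG Γ) X) (_ : ContinuousSMul (GG Γ) X)
      (μ : ProbabilityMeasure X) (ρ : X → X → ℝ),
      ErgodicSMul (GG Γ) X (μ : Measure X) ∧
      (∀ᵐ x ∂(μ : Measure X), ∀ g : GG Γ, g • x = x → g = 1) ∧
      IsGenerating (GG Γ) ρ ∧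
      soficEntropy (fun n => mod Γ (V n)) (fun n => vol Γ (V n)) ρ μ ≠ ⊥

end Pool.Agent.Y316.EV
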