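import Pool.Agent.Y316.EV.Gap2
import Pool.Agent.Y316.EV.Stm2

set_option autoImplicit false
set_option linter.unusedSectionVars false

/-!
# The Bernoulli action `K × K` (adapted from Pool/Agent/Y761/EV/Erg.lean of helper761)
-/

namespace Pool.Agent.Y316.EV

open MeasureTheory Set Filter Topology Pool.Agent.Y316.PC
open scoped ENNReal NNReal BoundedContinuousFunction

/-- The space `K × K`. -/
def XB (Γ : Type) : Type := KK Γ × KK Γ

section core

variable {Γ : Type} [Group Γ]

instance : MulAction (GG Γ) (XB Γ) where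
  smul g x := ((g.1 + sh g.2 x.1, sh g.2 x.2) : KK Γ × KK Γ)
  one_smul x := by
    show ((0 + sh (1 : Γ) x.1, sh (1 : Γ) x.2) : KK Γ × KK Γ) = x
    rw [sh_one, sh_one, zero_add]
    rfl
  mul_smul g h x := by
    show (((g * h).1 + sh (g * h).2 x.1, sh (g * h).2 x.2) : KK Γ × KK Γ) =
      (g.1 + sh g.2 (h.1 + sh h.2 x.1), sh g.2 (sh h.2 x.2))
    rw [GG.mul_fst, GG.mul_snd, sh_add, sh_mul, sh_mul, add_assoc]

theorem XB_smul_eq (g : GG Γ) (x : XB Γ) :
    g • x = (((g.1 + sh g.2 x.1, sh g.2 x.2) : KK Γ × KK Γ) : XB Γ) := rfl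

instance : TopologicalSpace (XB Γ) := inferInstanceAs (TopologicalSpace (KK Γ × KK Γ))

instance : CompactSpace (XB Γ) := inferInstanceAs (CompactSpace (KK Γ × KK Γ))

instance : T2Space (XB Γ) := inferInstanceAs (T2Space (KK Γ × KK Γ))

instance [Countable Γ] : SecondCountableTopology (XB Γ) :=
  inferInstanceAs (SecondCountableTopology (KK Γ × KK Γ))

instance [TopologicalSpace Γ] [DiscreteTopology Γ] : ContinuousSMul (GG Γ) (XB Γ) := by
  constructor
  have h1 : Continuous (fun z : GG Γ × XB Γ => z.1.1) :=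
    (continuous_fst (X := KK Γ) (Y := Γ)).comp continuous_fst
  have h2 : Continuous (fun z : GG Γ × XB Γ => z.1.2) :=
    (continuous_snd (X := KK Γ) (Y := Γ)).comp continuous_fst
  have h3 : Continuous (fun z : Γ × KK Γ => sh z.1 z.2) := by
    rw [continuous_prod_of_discrete_left]
    exact fun γ => continuous_sh γ
  have h4 : Continuous (fun z : GG Γ × XB Γ => z.2.1) :=
    (continuous_fst (X := KK Γ) (Y := KK Γ)).comp continuous_snd
  have h5 : Continuous (fun z : GG Γ × XB Γ => z.2.2) :=
    (continuous_snd (X := KK Γ) (Y := KK Γ)).comp continuous_snd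
  exact (h1.add (h3.comp (h2.prodMk h4))).prodMk (h3.comp (h2.prodMk h5))

instance : MeasurableSpace (XB Γ) := inferInstanceAs (MeasurableSpace (KK Γ × KK Γ))

instance [Countable Γ] : BorelSpace (XB Γ) := inferInstanceAs (BorelSpace (KK Γ × KK Γ))

end core

theorem big (hBe : S_BERN) (hMo : S_MODEL) : S_BIG := by
  intro Γ _ _ _ _ _ V _ _ _ _ _ _ _ F hFm hFu hFp
  classical
  let μ : Measure (XB Γ) := (haarK Γ).prod (haarK Γ)
  have hμp : IsProbabilityMeasure μ :=
    inferInstanceAs (IsProbabilityMeasure ((haarK Γ).prod (haarK Γ)))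
  let hmet : MetricSpace (XB Γ) := TopologicalSpace.metrizableSpaceMetric (XB Γ)
  have hpol : PolishSpace (XB Γ) := inferInstance
  refine ⟨XB Γ, inferInstance, hpol, inferInstance, inferInstance, inferInstance, inferInstance,
    ⟨μ, hμp⟩, fun x y => dist x y, ?_, ?_, ?_, ?_⟩
  · -- ergodicity
    have hmp0 : ∀ g : GG Γ, MeasurePreserving (fun x : XB Γ => g • x) μ μ := by
      intro g
      have h1 : MeasurePreserving (fun k : KK Γ => g.1 + sh g.2 k) (haarK Γ) (haarK Γ) :=
        (measurePreserving_add_left (haarK Γ) g.1).comp (measurePreserving_sh g.2)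
      have h2 : MeasurePreserving (sh g.2 : KK Γ → KK Γ) (haarK Γ) (haarK Γ) :=
        measurePreserving_sh g.2
      exact h1.prod h2
    have hinv : SMulInvariantMeasure (GG Γ) (XB Γ) μ :=
      ⟨fun g S hS => (hmp0 g).measure_preimage hS.nullMeasurableSet⟩
    have hsnd : MeasurePreserving (fun x : XB Γ => x.2) μ (haarK Γ) := by
      have : MeasurePreserving (Prod.snd : KK Γ × KK Γ → KK Γ) ((haarK Γ).prod (haarK Γ))
        (haarK Γ) := measurePreserving_snd
      exact this
    refine { toSMulInvariantMeasure := hinv, aeconst_of_forall_preimage_smul_ae_eq := ?_ }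
    intro S hS hinvS
    have hS0 : MeasurableSet (S : Set (KK Γ × KK Γ)) := hS
    -- the measure of the fibres
    let b : KK Γ → ENNReal := fun c => haarK Γ {k | ((k, c) : KK Γ × KK Γ) ∈ S}
    have hb : Measurable b := measurable_measure_prodMk_right hS0
    let B : Set (KK Γ) := b ⁻¹' {1}
    have hB : MeasurableSet B := hb (measurableSet_singleton 1)
    -- invariance under `K`
    have hfub : ∀ᵐ x ∂μ, ∀ᵐ k ∂(haarK Γ), (((k + x.1, x.2) : KK Γ × KK Γ) ∈ S ↔ x ∈ S) := by
      have hmeas : MeasurableSet {z : XB Γ × KK Γ |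
          (((z.2 + z.1.1, z.1.2) : KK Γ × KK Γ) ∈ S ↔ z.1 ∈ S)} := by
        have h1 : Measurable fun z : XB Γ × KK Γ => ((z.2 + z.1.1, z.1.2) : KK Γ × KK Γ) := by
          have h2 : Measurable fun z : XB Γ × KK Γ => z.1.1 :=
            (measurable_fst (α := KK Γ) (β := KK Γ)).comp measurable_fst
          have h3 : Measurable fun z : XB Γ × KK Γ => z.1.2 :=
            (measurable_snd (α := KK Γ) (β := KK Γ)).comp measurable_fst
          exact (measurable_snd.add h2).prodMk h3
        exact ((hS0.preimage h1).mem.iff (hS.preimage measurable_fst).mem).setOf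
      rw [Measure.ae_ae_comm hmeas]
      refine ae_of_all _ fun k => ?_
      filter_upwards [(hinvS (ik k)).mem_iff] with x hx
      have h4 : (ik k : GG Γ) • x = ((k + x.1, x.2) : KK Γ × KK Γ) := by
        rw [XB_smul_eq]
        show ((k + sh (1 : Γ) x.1, sh (1 : Γ) x.2) : KK Γ × KK Γ) = _
        rw [sh_one, sh_one]
      rw [← h4]
      exact hx
    have hSB : S =ᵐ[μ] (fun x : XB Γ => x.2) ⁻¹' B := by
      rw [eventuallyEq_set]
      filter_upwards [hfub] with x hx
      have h1 : b x.2 = haarK Γ {k | ((k + x.1, x.2) : KK Γ × KK Γ) ∈ S} := by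
        have h2 := measure_preimage_add_right (haarK Γ) x.1 {k | ((k, x.2) : KK Γ × KK Γ) ∈ S}
        exact h2.symm
      constructor
      · intro hxS
        show b x.2 = 1
        have h4 : {k | ((k + x.1, x.2) : KK Γ × KK Γ) ∈ S} =ᵐ[haarK Γ] univ := by
          rw [eventuallyEq_univ]
          filter_upwards [hx] with k hk
          exact hk.2 hxS
        rw [h1, measure_congr h4]
        exact measure_univ
      · intro hxB
        have h3 : b x.2 = 1 := hxB
        by_contra hxS
        have h4 : haarK Γ {k | ((k + x.1, x.2) : KK Γ × KK Γ) ∈ S} = 0 := by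
          rw [measure_eq_zero_iff_ae_notMem]
          filter_upwards [hx] with k hk hk2
          exact hxS (hk.1 hk2)
        rw [h1, h4] at h3
        exact zero_ne_one h3
    have hBinv : ∀ γ : Γ, sh γ ⁻¹' B =ᵐ[haarK Γ] B := by
      intro γ
      have h1 : (fun x : XB Γ => (ig γ : GG Γ) • x) ⁻¹' S =ᵐ[μ] S := hinvS (ig γ)
      have h2 : (fun x : XB Γ => (ig γ : GG Γ) • x) ⁻¹' S =ᵐ[μ]
          (fun x : XB Γ => (ig γ : GG Γ) • x) ⁻¹' ((fun x : XB Γ => x.2) ⁻¹' B) :=
        (hmp0 (ig γ)).quasiMeasurePreserving.preimage_ae_eq hSB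
      have h3 : (fun x : XB Γ => x.2) ⁻¹' (sh γ ⁻¹' B) =ᵐ[μ]
          (fun x : XB Γ => x.2) ⁻¹' B := (h2.symm.trans h1).trans hSB
      rw [eventuallyEq_set] at h3 ⊢
      rw [← hsnd.map_eq, ae_map_iff hsnd.measurable.aemeasurable]
      · exact h3
      · have h5 : MeasurableSet (sh γ ⁻¹' B) := hB.preimage (measurable_sh γ)
        exact (h5.mem.iff hB.mem).setOf
    have hBc : EventuallyConst B (ae (haarK Γ)) := by
      rw [eventuallyConst_set']
      rcases (hBe Γ).1 B hB hBinv with h | h
      · exact Or.inl (ae_eq_empty.mpr h)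
      · refine Or.inr ?_
        rw [ae_eq_univ, prob_compl_eq_zero_iff hB]
        exact h
    exact (hBc.comp_tendsto hsnd.quasiMeasurePreserving.tendsto_ae).congr hSB.symm
  · -- freeness
    have hsnd : MeasurePreserving (fun x : XB Γ => x.2) μ (haarK Γ) := by
      have : MeasurePreserving (Prod.snd : KK Γ × KK Γ → KK Γ) ((haarK Γ).prod (haarK Γ))
        (haarK Γ) := measurePreserving_snd
      exact this
    have h0 : ∀ᵐ x ∂μ, ∀ γ : Γ, sh γ x.2 = x.2 → γ = 1 :=
      hsnd.quasiMeasurePreserving.tendsto_ae.eventually (hBe Γ).2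
    show ∀ᵐ x ∂μ, ∀ g : GG Γ, g • x = x → g = 1
    filter_upwards [h0] with x hx g hg
    have h1 : g.1 + sh g.2 x.1 = x.1 := congrArg Prod.fst hg
    have h2 : sh g.2 x.2 = x.2 := congrArg Prod.snd hg
    have h3 : g.2 = 1 := hx _ h2
    rw [h3, sh_one] at h1
    exact GG.ext' (add_eq_right.1 h1) h3
  · refine ⟨dist_self, dist_comm, dist_triangle, ?_, continuous_dist, ?_⟩
    · obtain ⟨B, hB⟩ := Metric.isBounded_iff.1 (isCompact_univ (X := XB Γ)).isBounded
      exact ⟨B, fun x y => hB (mem_univ x) (mem_univ y)⟩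
    · intro x y hxy
      refine ⟨1, ?_⟩
      rw [one_smul, one_smul]
      exact dist_pos.2 hxy
  · -- entropy
    have hFT : ∀ n, Fintype (V n) := fun n => Fintype.ofFinite (V n)
    have hmain : (0 : EReal) ≤ soficEntropy (fun n => mod Γ (V n)) (fun n => vol Γ (V n))
        (fun x y : XB Γ => dist x y) ⟨μ, hμp⟩ := by
      unfold soficEntropy
      refine le_trans ?_ (le_iSup₂ (f := fun (ε : ℝ) (_ : ε ∈ Ioi (0 : ℝ)) =>
        ⨅ O ∈ {O : Set (ProbabilityMeasure (XB Γ)) | IsOpen O ∧
          (⟨μ, hμp⟩ : ProbabilityMeasure (XB Γ)) ∈ O},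
        ⨅ U ∈ {U : Set (GG Γ) | IsOpen U ∧ IsCompact (closure U)}, ⨅ δ ∈ Ioi (0 : ℝ),
        limsup (fun i => logSep (vol Γ (V i)) (fun x y : XB Γ => dist x y) ε
          (Map (mod Γ (V i)) (vol Γ (V i)) (fun x y : XB Γ => dist x y) U δ O) /
          ((vol Γ (V i) univ).toReal : EReal)) atTop) 1 (mem_Ioi.mpr one_pos))
      refine le_iInf₂ fun O hO => le_iInf₂ fun U hU => le_iInf₂ fun δ hδ => ?_
      rw [mem_Ioi] at hδ
      refine le_limsup_of_frequently_le ?_ (by isBoundedDefault)
      have hev := hMo Γ V F hFm hFu hFp ⟨μ, hμp⟩ rfl O hO.1 hO.2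
      refine hev.frequently.mono fun n hn => ?_
      obtain ⟨m, a, κ, hκ, hκ'⟩ := hn
      have h1 := hFT n
      have hN : 0 < Fintype.card (V n) := Fintype.card_pos
      have hN' : (0 : ℝ) < Fintype.card (V n) := by exact_mod_cast hN
      set φ : KK Γ × V n → XB Γ := fun p => ((p.1, (kap a p.2 : KK Γ)) : KK Γ × KK Γ) with hφ
      have hφm : Measurable φ := by
        have h2 : Measurable (fun v : V n => (kap a v : KK Γ)) := Measurable.of_discrete
        exact measurable_fst.prodMk (h2.comp measurable_snd)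
      have hφe : ∀ (g : GG Γ) (p : KK Γ × V n), φ (act g p) = g • φ p := by
        intro g p
        rw [XB_smul_eq]
        show ((g.1 + sh g.2 p.1, (kap a (g.2 • p.2) : KK Γ)) : KK Γ × KK Γ) =
          (g.1 + sh g.2 p.1, sh g.2 (kap a p.2))
        rw [kap_smul]
      have hmem : φ ∈ Map (mod Γ (V n)) (vol Γ (V n)) (fun x y : XB Γ => dist x y) U δ O := by
        refine ⟨hφm, fun g hg => ?_, κ, hκ, hκ'⟩
        have e1 : ∀ p, dist (φ ((mod Γ (V n)).act g p)) (g • φ p) = 0 := by
          intro p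
          rw [dist_eq_zero]
          exact hφe g p
        simp only [e1]
        simpa using hδ
      have h3 : (0 : EReal) ≤ logSep (vol Γ (V n)) (fun x y : XB Γ => dist x y) 1
          (Map (mod Γ (V n)) (vol Γ (V n)) (fun x y : XB Γ => dist x y) U δ O) := by
        unfold logSep
        refine le_trans ?_ (le_iSup₂ (f := fun (s : Finset (KK Γ × V n → XB Γ)) _ =>
          ((Real.log s.card : ℝ) : EReal)) {φ} ?_)
        · simp
        · refine ⟨Finset.singleton_nonempty _, by simpa using hmem, ?_⟩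
          intro ψ hψ ψ' hψ' hne
          rw [Finset.mem_singleton] at hψ hψ'
          exact absurd (hψ.trans hψ'.symm) hne
      exact EReal.div_nonneg h3 (by rw [vol_univ]; exact_mod_cast hN'.le)
    intro h
    rw [h] at hmain
    exact absurd hmain (by simp)

end Pool.Agent.Y316.EV
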