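import Pool.Agent.Y316.EV.Defs

set_option autoImplicit false

/-!
# The group `SL₂(ℤ) ⋉ ℤ²` and its action on `(ℤ/n)²`
-/

namespace Pool.Agent.Y316.EV

open MeasureTheory Set Filter Topology Matrix

/-- `SL₂(ℤ)` -/
abbrev SL2 : Type := SpecialLinearGroup (Fin 2) ℤ

/-- the matrix of an element of `SL₂(ℤ)` -/
def mt (A : SL2) : Matrix (Fin 2) (Fin 2) ℤ := (A : Matrix (Fin 2) (Fin 2) ℤ)

theorem mt_mul (A B : SL2) : mt (A * B) = mt A * mt B :=
  Matrix.SpecialLinearGroup.coe_mul A B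

theorem mt_one : mt 1 = 1 := Matrix.SpecialLinearGroup.coe_one

theorem mt_injective : Function.Injective mt := fun _ _ h => Subtype.ext h

/-- The group `SL₂(ℤ) ⋉ ℤ²` of the affine maps `x ↦ A x + b`. -/
@[ext] structure Aff where
  A : SL2
  b : Fin 2 → ℤ

instance : Group Aff where
  mul g h := ⟨g.A * h.A, g.b + mt g.A *ᵥ h.b⟩
  one := ⟨1, 0⟩
  inv g := ⟨g.A⁻¹, -(mt g.A⁻¹ *ᵥ g.b)⟩
  mul_assoc a b c := by
    refine Aff.ext (mul_assoc _ _ _) ?_
    show a.b + mt a.A *ᵥ b.b + mt (a.A * b.A) *ᵥ c.b = a.b + mt a.A *ᵥ (b.b + mt b.A *ᵥ c.b)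
    rw [mulVec_add, mulVec_mulVec, add_assoc, mt_mul]
  one_mul a := by
    refine Aff.ext (one_mul _) ?_
    show (0 : Fin 2 → ℤ) + mt 1 *ᵥ a.b = a.b
    rw [zero_add, mt_one, one_mulVec]
  mul_one a := by
    refine Aff.ext (mul_one _) ?_
    show a.b + mt a.A *ᵥ (0 : Fin 2 → ℤ) = a.b
    rw [mulVec_zero, add_zero]
  inv_mul_cancel a := by
    refine Aff.ext (inv_mul_cancel _) ?_
    show -(mt a.A⁻¹ *ᵥ a.b) + mt a.A⁻¹ *ᵥ a.b = 0
    rw [neg_add_cancel]

theorem Aff.mul_A (g h : Aff) : (g * h).A = g.A * h.A := rfl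
theorem Aff.mul_b (g h : Aff) : (g * h).b = g.b + mt g.A *ᵥ h.b := rfl
theorem Aff.one_A : (1 : Aff).A = 1 := rfl
theorem Aff.one_b : (1 : Aff).b = 0 := rfl

instance : Countable Aff := by
  have h : Function.Injective (fun g : Aff => ((fun i j => mt g.A i j : Fin 2 → Fin 2 → ℤ), g.b)) := by
    intro g h hgh
    have h1 := congrArg Prod.fst hgh
    have h2 := congrArg Prod.snd hgh
    exact Aff.ext (mt_injective h1) h2
  exact h.countable

instance : Infinite Aff := by
  have h : Function.Injective (fun n : ℤ => (⟨1, fun _ => n⟩ : Aff)) := by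
    intro n m hnm
    exact congrFun (congrArg Aff.b hnm) 0
  exact Infinite.of_injective _ h

instance : TopologicalSpace Aff := ⊥
instance : DiscreteTopology Aff := ⟨rfl⟩
instance : MeasurableSpace Aff := ⊤
instance : DiscreteMeasurableSpace Aff := ⟨fun _ => trivial⟩

/-- `(ℤ/n)²` -/
def Tor (n : ℕ) : Type := Fin 2 → ZMod n

instance (n : ℕ) : AddCommGroup (Tor n) := inferInstanceAs (AddCommGroup (Fin 2 → ZMod n))
instance (n : ℕ) : DecidableEq (Tor n) := inferInstanceAs (DecidableEq (Fin 2 → ZMod n))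
instance (n : ℕ) [NeZero n] : Fintype (Tor n) := inferInstanceAs (Fintype (Fin 2 → ZMod n))
instance (n : ℕ) : TopologicalSpace (Tor n) := ⊥
instance (n : ℕ) : DiscreteTopology (Tor n) := ⟨rfl⟩
instance (n : ℕ) : MeasurableSpace (Tor n) := ⊤
instance (n : ℕ) : DiscreteMeasurableSpace (Tor n) := ⟨fun _ => trivial⟩

/-- reduction mod `n` of an integer matrix -/
def redM (n : ℕ) (A : SL2) : Matrix (Fin 2) (Fin 2) (ZMod n) :=
  (mt A).map (Int.castRingHom (ZMod n))

/-- reduction mod `n` of an integer vector -/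
def redV (n : ℕ) (b : Fin 2 → ℤ) : Fin 2 → ZMod n := fun i => (b i : ZMod n)

theorem redM_mul (n : ℕ) (A B : SL2) : redM n (A * B) = redM n A * redM n B := by
  unfold redM
  rw [mt_mul]
  exact Matrix.map_mul

theorem redM_one (n : ℕ) : redM n 1 = 1 := by
  unfold redM
  rw [mt_one]
  exact Matrix.map_one _ (map_zero _) (map_one _)

theorem redV_add (n : ℕ) (b c : Fin 2 → ℤ) : redV n (b + c) = redV n b + redV n c := by
  funext i
  simp [redV]

theorem redV_mulVec (n : ℕ) (A : SL2) (b : Fin 2 → ℤ) :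
    redV n (mt A *ᵥ b) = redM n A *ᵥ redV n b := by
  funext i
  simp [redV, redM, mulVec, dotProduct]

/-- The affine action of `SL₂(ℤ) ⋉ ℤ²` on `(ℤ/n)²`. -/
instance (n : ℕ) : MulAction Aff (Tor n) where
  smul g x := (redM n g.A *ᵥ x + redV n g.b : Fin 2 → ZMod n)
  one_smul x := by
    show (redM n (1 : SL2) *ᵥ x + redV n 0 : Fin 2 → ZMod n) = x
    have h : redV n 0 = 0 := by
      funext i
      simp [redV]
    rw [redM_one, h, one_mulVec, add_zero]
  mul_smul g h x := by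
    show (redM n (g.A * h.A) *ᵥ x + redV n (g.b + mt g.A *ᵥ h.b) : Fin 2 → ZMod n) =
      redM n g.A *ᵥ (redM n h.A *ᵥ x + redV n h.b) + redV n g.b
    rw [redM_mul, redV_add, redV_mulVec, mulVec_add, mulVec_mulVec]
    abel

theorem smul_def (n : ℕ) (g : Aff) (x : Tor n) :
    g • x = (redM n g.A *ᵥ x + redV n g.b : Fin 2 → ZMod n) := rfl

/-- the translations by the two basis vectors -/
def tr (i : Fin 2) : Aff := ⟨1, Pi.single i 1⟩

/-- the two elementary matrices -/
def el : Fin 2 → Aff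
  | 0 => ⟨⟨!![1, 1; 0, 1], by simp [Matrix.det_fin_two]⟩, 0⟩
  | 1 => ⟨⟨!![1, 0; 1, 1], by simp [Matrix.det_fin_two]⟩, 0⟩

theorem tr_smul (n : ℕ) (i : Fin 2) (x : Tor n) :
    tr i • x = (fun j => x j + (Pi.single i 1 : Fin 2 → ZMod n) j) := by
  rw [smul_def]
  have h : redV n (tr i).b = Pi.single i 1 := by
    funext j
    fin_cases i <;> fin_cases j <;> simp [redV, tr]
  rw [h]
  show redM n 1 *ᵥ x + _ = _
  rw [redM_one, one_mulVec]
  rfl

theorem el_zero_smul (n : ℕ) (x : Tor n) :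
    el 0 • x = (![x 0 + x 1, x 1] : Fin 2 → ZMod n) := by
  rw [smul_def]
  funext j
  fin_cases j <;> simp [redV, redM, el, mt]

theorem el_one_smul (n : ℕ) (x : Tor n) :
    el 1 • x = (![x 0, x 0 + x 1] : Fin 2 → ZMod n) := by
  rw [smul_def]
  funext j
  fin_cases j <;> simp [redV, redM, el, mt]

/-- the sign of the permutation of `(ℤ/2)²` -/
noncomputable def chi : Aff →* ℤˣ := Equiv.Perm.sign.comp (MulAction.toPermHom Aff (Tor 2))

theorem chi_tr (i : Fin 2) : chi (tr i) = 1 := by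
  unfold chi
  fin_cases i <;> decide

theorem chi_el (i : Fin 2) : chi (el i) = -1 := by
  unfold chi
  fin_cases i <;> decide

end Pool.Agent.Y316.EV
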