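import Pool.Agent.Y316.PC.Defs

set_option autoImplicit false

/-!
# The group `G = (∏_{Γ × ℕ} ℤ/2) ⋊ Γ` and its sofic approximations `K × V`
-/

namespace Pool.Agent.Y316.EV

open MeasureTheory Set Filter Topology Pool.Agent.Y316.PC
open scoped ENNReal NNReal

/-- The compact abelian group `K` of all functions `Γ × ℕ → ℤ/2`. -/
abbrev KK (Γ : Type) : Type := Γ × ℕ → ZMod 2

section sh

variable {Γ : Type} [Group Γ]

/-- The shift action of `Γ` on `K`. -/
def sh (γ : Γ) (k : KK Γ) : KK Γ := fun z => k (γ⁻¹ * z.1, z.2)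

@[simp] theorem sh_apply (γ : Γ) (k : KK Γ) (z : Γ × ℕ) : sh γ k z = k (γ⁻¹ * z.1, z.2) := rfl

@[simp] theorem sh_one (k : KK Γ) : sh 1 k = k := by
  funext z
  simp

theorem sh_mul (a b : Γ) (k : KK Γ) : sh (a * b) k = sh a (sh b k) := by
  funext z
  simp [mul_assoc]

@[simp] theorem sh_zero (a : Γ) : sh a (0 : KK Γ) = 0 := rfl

@[simp] theorem sh_add (a : Γ) (k l : KK Γ) : sh a (k + l) = sh a k + sh a l := rfl

@[simp] theorem sh_neg (a : Γ) (k : KK Γ) : sh a (-k) = -sh a k := rfl

theorem continuous_sh (a : Γ) : Continuous (sh a : KK Γ → KK Γ) :=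
  continuous_pi fun _ => continuous_apply _

theorem measurable_sh (a : Γ) : Measurable (sh a : KK Γ → KK Γ) :=
  measurable_pi_lambda _ fun _ => measurable_pi_apply _

end sh

/-- The group `G = K ⋊ Γ`, with underlying space `K × Γ`. -/
def GG (Γ : Type) : Type := KK Γ × Γ

section GG

variable {Γ : Type} [Group Γ]

instance : Group (GG Γ) where
  mul a b := (a.1 + sh a.2 b.1, a.2 * b.2)
  one := ((0 : KK Γ), (1 : Γ))
  inv a := (sh a.2⁻¹ (-a.1), a.2⁻¹)
  mul_assoc a b c := by
    show ((a.1 + sh a.2 b.1 + sh (a.2 * b.2) c.1, a.2 * b.2 * c.2) : KK Γ × Γ) =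
      (a.1 + sh a.2 (b.1 + sh b.2 c.1), a.2 * (b.2 * c.2))
    rw [sh_add, sh_mul, mul_assoc, add_assoc]
  one_mul a := by
    show (((0 : KK Γ) + sh (1 : Γ) a.1, (1 : Γ) * a.2) : KK Γ × Γ) = a
    rw [sh_one, zero_add, one_mul]
    rfl
  mul_one a := by
    show ((a.1 + sh a.2 (0 : KK Γ), a.2 * (1 : Γ)) : KK Γ × Γ) = a
    rw [sh_zero, add_zero, mul_one]
    rfl
  inv_mul_cancel a := by
    show ((sh a.2⁻¹ (-a.1) + sh a.2⁻¹ a.1, a.2⁻¹ * a.2) : KK Γ × Γ) = ((0 : KK Γ), (1 : Γ))
    rw [← sh_add, neg_add_cancel, sh_zero, inv_mul_cancel]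

theorem GG.mul_fst (a b : GG Γ) : (a * b).1 = a.1 + sh a.2 b.1 := rfl
theorem GG.mul_snd (a b : GG Γ) : (a * b).2 = a.2 * b.2 := rfl
theorem GG.one_fst : (1 : GG Γ).1 = 0 := rfl
theorem GG.one_snd : (1 : GG Γ).2 = 1 := rfl
theorem GG.inv_fst (a : GG Γ) : (a⁻¹).1 = sh a.2⁻¹ (-a.1) := rfl
theorem GG.inv_snd (a : GG Γ) : (a⁻¹).2 = a.2⁻¹ := rfl

omit [Group Γ] in
theorem GG.ext' {a b : GG Γ} (h1 : a.1 = b.1) (h2 : a.2 = b.2) : a = b := Prod.ext h1 h2

/-- the embedding of `K` in `G` -/
def ik (k : KK Γ) : GG Γ := (k, (1 : Γ))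

/-- the embedding of `Γ` in `G` -/
def ig (γ : Γ) : GG Γ := ((0 : KK Γ), γ)

theorem ik_add (k l : KK Γ) : ik (k + l) = ik k * ik l := by
  refine GG.ext' ?_ ?_
  · rw [GG.mul_fst]
    simp [ik]
  · rw [GG.mul_snd]
    simp [ik]

theorem ik_zero : ik (0 : KK Γ) = 1 := rfl

theorem mul_ik (g : GG Γ) (k : KK Γ) : g * ik k = ik (sh g.2 k) * g := by
  refine GG.ext' ?_ ?_
  · rw [GG.mul_fst, GG.mul_fst]
    simp [ik, add_comm]
  · rw [GG.mul_snd, GG.mul_snd]
    simp [ik]

theorem eq_ik_mul_ig (g : GG Γ) : g = ik g.1 * ig g.2 := by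
  refine GG.ext' ?_ ?_
  · rw [GG.mul_fst]
    simp [ik, ig]
  · rw [GG.mul_snd]
    simp [ik, ig]

instance [TopologicalSpace Γ] : TopologicalSpace (GG Γ) :=
  inferInstanceAs (TopologicalSpace (KK Γ × Γ))

instance [MeasurableSpace Γ] : MeasurableSpace (GG Γ) :=
  inferInstanceAs (MeasurableSpace (KK Γ × Γ))

end GG

section model

variable {Γ : Type} [Group Γ] [Countable Γ]

/-- The Haar probability measure of `K`. -/
noncomputable def haarK (Γ : Type) [Countable Γ] : Measure (KK Γ) :=
  Measure.addHaarMeasure (⊤ : TopologicalSpace.PositiveCompacts (KK Γ))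

instance : (haarK Γ).IsAddHaarMeasure :=
  inferInstanceAs (Measure.addHaarMeasure _).IsAddHaarMeasure

instance : IsProbabilityMeasure (haarK Γ) :=
  ⟨by
    have h := Measure.addHaarMeasure_self (K₀ := (⊤ : TopologicalSpace.PositiveCompacts (KK Γ)))
    simpa [haarK] using h⟩

theorem map_sh (γ : Γ) : (haarK Γ).map (sh γ) = haarK Γ := by
  let e : KK Γ ≃+ KK Γ :=
    { toFun := sh γ
      invFun := sh γ⁻¹
      left_inv := fun k => by rw [← sh_mul, inv_mul_cancel, sh_one]
      right_inv := fun k => by rw [← sh_mul, mul_inv_cancel, sh_one]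
      map_add' := sh_add γ }
  have h1 : ((haarK Γ).map e).IsAddHaarMeasure :=
    e.isAddHaarMeasure_map (haarK Γ) (continuous_sh γ) (continuous_sh γ⁻¹)
  have h2 : ((haarK Γ).map (sh γ)).IsAddHaarMeasure := h1
  have h3 : IsProbabilityMeasure ((haarK Γ).map (sh γ)) :=
    Measure.isProbabilityMeasure_map (measurable_sh γ).aemeasurable
  exact Measure.isAddHaarMeasure_eq_of_isProbabilityMeasure _ _

theorem measurePreserving_sh (γ : Γ) : MeasurePreserving (sh γ) (haarK Γ) (haarK Γ) :=
  ⟨measurable_sh γ, map_sh γ⟩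

/-- The Haar measure of `G`: the product of the Haar probability measure of `K` and the counting
measure of `Γ`. -/
noncomputable def haarG (Γ : Type) [Countable Γ] [MeasurableSpace Γ] : Measure (GG Γ) :=
  (haarK Γ).prod (Measure.count : Measure Γ)

/-- The canonical measure of `K × V`. -/
noncomputable def vol (Γ : Type) [Countable Γ] (V : Type) [MeasurableSpace V] :
    Measure (KK Γ × V) :=
  (haarK Γ).prod (Measure.count : Measure V)

end model

section act

variable {Γ : Type} [Group Γ]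

/-- The action of `G` on `K × V` for a `Γ`-set `V`. -/
def act {V : Type} [MulAction Γ V] (g : GG Γ) (p : KK Γ × V) : KK Γ × V :=
  (g.1 + sh g.2 p.1, g.2 • p.2)

theorem act_mul {V : Type} [MulAction Γ V] (g h : GG Γ) (p : KK Γ × V) :
    act (g * h) p = act g (act h p) := by
  unfold act
  rw [GG.mul_fst, GG.mul_snd, sh_add, sh_mul, mul_smul, add_assoc]

theorem act_one {V : Type} [MulAction Γ V] (p : KK Γ × V) : act (1 : GG Γ) p = p := by
  unfold act
  rw [GG.one_fst, GG.one_snd, sh_one, one_smul, zero_add]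

variable [TopologicalSpace Γ] [DiscreteTopology Γ]

theorem continuous_act {V : Type} [MulAction Γ V] [TopologicalSpace V] [DiscreteTopology V] :
    Continuous (fun z : GG Γ × (KK Γ × V) => act z.1 z.2) := by
  have h1 : Continuous (fun z : GG Γ × (KK Γ × V) => z.1.1) :=
    (continuous_fst (X := KK Γ) (Y := Γ)).comp continuous_fst
  have h2 : Continuous (fun z : GG Γ × (KK Γ × V) => z.1.2) :=
    (continuous_snd (X := KK Γ) (Y := Γ)).comp continuous_fst
  have h3 : Continuous (fun z : Γ × KK Γ => sh z.1 z.2) := by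
    rw [continuous_prod_of_discrete_left]
    exact fun γ => continuous_sh γ
  have h4 : Continuous (fun z : Γ × V => z.1 • z.2) := continuous_of_discreteTopology
  exact (h1.add (h3.comp (h2.prodMk (continuous_fst.comp continuous_snd)))).prodMk
    (h4.comp (h2.prodMk (continuous_snd.comp continuous_snd)))

/-- The local `G`-space `K × V` (a genuine action of `G`) of a `Γ`-set `V`. -/
def mod (Γ : Type) [Group Γ] [TopologicalSpace Γ] [DiscreteTopology Γ]
    (V : Type) [MulAction Γ V] [TopologicalSpace V] [DiscreteTopology V] :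
    LocalSpace (GG Γ) (KK Γ × V) where
  dom := univ
  act := act
  isOpen_dom := isOpen_univ
  continuousOn_act := continuous_act.continuousOn
  one_mem := fun _ => mem_univ _
  one_act := act_one
  inv_mem := fun _ _ _ => mem_univ _
  inv_act := fun g p _ => by rw [← act_mul, inv_mul_cancel, act_one]
  mul_act := fun g h p _ _ _ => act_mul g h p
  exists_chart := by
    intro p
    refine ⟨{g : GG Γ | g.2 = 1}, rfl, ?_, fun _ _ => mem_univ _, ?_, ?_⟩
    · exact (isOpen_discrete ({1} : Set Γ)).preimage (continuous_snd (X := KK Γ) (Y := Γ))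
    · intro g hg h hh hgh
      have hg' : g.2 = 1 := hg
      have hh' : h.2 = 1 := hh
      have h1 : g.1 + sh g.2 p.1 = h.1 + sh h.2 p.1 := congrArg Prod.fst hgh
      rw [hg', hh', sh_one] at h1
      exact GG.ext' (add_right_cancel h1) (hg'.trans hh'.symm)
    · intro W hW hWo
      have h1 : (fun g : GG Γ => act g p) '' W =
          (fun q : KK Γ × V => (((q.1 - p.1, (1 : Γ)) : GG Γ))) ⁻¹' W ∩ {q | q.2 = p.2} := by
        ext q
        constructor
        · rintro ⟨g, hg, rfl⟩
          have hg' : g.2 = 1 := hW hg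
          have h2 : (((act g p).1 - p.1, (1 : Γ)) : GG Γ) = g := by
            refine GG.ext' ?_ hg'.symm
            show g.1 + sh g.2 p.1 - p.1 = g.1
            rw [hg', sh_one, add_sub_cancel_right]
          refine ⟨?_, ?_⟩
          · show (((act g p).1 - p.1, (1 : Γ)) : GG Γ) ∈ W
            rw [h2]
            exact hg
          · show g.2 • p.2 = p.2
            rw [hg', one_smul]
        · rintro ⟨h2, h3⟩
          refine ⟨_, h2, ?_⟩
          have h3' : q.2 = p.2 := h3
          refine Prod.ext ?_ ?_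
          · show q.1 - p.1 + sh (1 : Γ) p.1 = q.1
            rw [sh_one, sub_add_cancel]
          · show (1 : Γ) • p.2 = q.2
            rw [one_smul, h3']
      rw [h1]
      refine IsOpen.inter (hWo.preimage ?_) ((isOpen_discrete {p.2}).preimage continuous_snd)
      exact (continuous_fst.sub continuous_const).prodMk continuous_const

end act

end Pool.Agent.Y316.EV
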