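import Pool.Agent.Y316.EV.Aff

set_option autoImplicit false

/-!
# Statements of the steps
-/

namespace Pool.Agent.Y316.EV

open MeasureTheory Set Filter Topology Pool.Agent.Y316.PC
open scoped ENNReal NNReal

/-- Relative property (T) of `(SL₂(ℤ) ⋉ ℤ², ℤ²)` for the quotients `(ℤ/p)²`. -/
def S_RELT : Prop :=
  ∀ (p : ℕ) [NeZero p] (F : (Fin 2 → ZMod p) → ℝ) (ε : ℝ) (c : Fin 2 → ℝ), 0 ≤ ε →
    (∀ i, |c i| = 1) →
    (∀ i, ∑ v, (F (v + Pi.single i 1) - F v) ^ 2 ≤ ε * ∑ v, F v ^ 2) →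
    ∑ v, (F ![v 0 + v 1, v 1] - c 0 * F v) ^ 2 ≤ ε * ∑ v, F v ^ 2 →
    ∑ v, (F ![v 0, v 0 + v 1] - c 1 * F v) ^ 2 ≤ ε * ∑ v, F v ^ 2 →
    (1 - 50 * Real.sqrt ε) * ((p : ℝ) ^ 2 * ∑ v, F v ^ 2) ≤ (∑ v, F v) ^ 2

/-- The quotients `(ℤ/p)²`, `p` prime, are a sofic approximation to `SL₂(ℤ) ⋉ ℤ²`, and
`SL₂(ℤ) ⋉ ℤ²` is residually finite. -/
def S_SEQ : Prop :=
  (∃ (F : ℕ → Finset Aff) (p : ℕ → ℕ), Monotone F ∧ (∀ γ, ∃ n, γ ∈ F n) ∧ (∀ n, (1 : Aff) ∈ F n) ∧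
    (∀ n, (p n).Prime) ∧
    ∀ n, ({v : Tor (p n) | ¬ InjOn (fun γ : Aff => γ • v) (F n)}.ncard : ℝ) ≤
      (1 / ((n : ℝ) + 1)) * Nat.card (Tor (p n))) ∧
  ∀ γ : Aff, (∀ (n : ℕ) (x : Tor (n + 1)), γ • x = x) → γ = 1

/-- Existence of large codes. -/
def S_CODE : Prop :=
  ∀ (V : Type) [Fintype V] (m : ℕ), ∃ C : Finset (V → Fin m → ZMod 2), C.Nonempty ∧
    (∀ a ∈ C, ∀ b ∈ C, a ≠ b → (Fintype.card V : ℝ) / 4 ≤ ({v : V | a v ≠ b v}.ncard : ℝ)) ∧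
    (Fintype.card V : ℝ) * ((m : ℝ) / 2 * Real.log 2 - 1) ≤ Real.log C.card

/-- Approximate equivariance does not depend on the pseudometric. -/
def S_PSD : Prop :=
  ∀ (G : Type) [Group G] [TopologicalSpace G] [IsTopologicalGroup G] [LocallyCompactSpace G]
    (X : Type) [TopologicalSpace X] [PolishSpace X] [MeasurableSpace X] [BorelSpace X]
    [MulAction G X] [ContinuousSMul G X] (μ : ProbabilityMeasure X) (ρ ρ' : X → X → ℝ),
    IsGenerating G ρ → (∀ x, ρ' x x = 0) → (∀ x y, 0 ≤ ρ' x y) → (∃ B : ℝ, ∀ x y, ρ' x y ≤ B) →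
    Continuous (fun z : X × X => ρ' z.1 z.2) →
    ∀ (U : Set G), IsCompact (closure U) → ∀ δ : ℝ, 0 < δ →
    ∃ (U' : Set G) (δ' : ℝ) (O' : Set (ProbabilityMeasure X)), IsOpen U' ∧
      IsCompact (closure U') ∧ 0 < δ' ∧ IsOpen O' ∧ μ ∈ O' ∧
      ∀ (M : Type) [TopologicalSpace M] [MeasurableSpace M] (S : LocalSpace G M) (v : Measure M)
        [IsFiniteMeasure v], v univ ≠ 0 → S.dom = univ → (∀ g, MeasurePreserving (S.act g) v v) →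
        ∀ φ ∈ Map S v ρ U' δ' O', ∀ g ∈ U,
          (∫ p, ρ' (φ (S.act g p)) (g • φ p) ∂v) / (v univ).toReal < δ

/-- The group `G = K ⋊ Γ` is a locally compact second countable group, and `haarG` is its Haar
measure. -/
def S_TOP : Prop :=
  ∀ (Γ : Type) [Group Γ] [Countable Γ] [TopologicalSpace Γ] [DiscreteTopology Γ]
    [MeasurableSpace Γ] [DiscreteMeasurableSpace Γ],
    IsTopologicalGroup (GG Γ) ∧ T2Space (GG Γ) ∧ LocallyCompactSpace (GG Γ) ∧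
    SecondCountableTopology (GG Γ) ∧ BorelSpace (GG Γ) ∧ (Infinite Γ → NoncompactSpace (GG Γ)) ∧
    (haarG Γ).IsHaarMeasure ∧ (haarG Γ).IsMulRightInvariant

/-- The spaces `K × V` form a sofic approximation. -/
def S_SOF : Prop :=
  ∀ (Γ : Type) [Group Γ] [Countable Γ] [TopologicalSpace Γ] [DiscreteTopology Γ]
    [MeasurableSpace Γ] [DiscreteMeasurableSpace Γ]
    (V : ℕ → Type) [∀ n, MulAction Γ (V n)] [∀ n, Finite (V n)] [∀ n, Nonempty (V n)]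
    [∀ n, TopologicalSpace (V n)] [∀ n, DiscreteTopology (V n)]
    [∀ n, MeasurableSpace (V n)] [∀ n, DiscreteMeasurableSpace (V n)]
    (F : ℕ → Finset Γ), Monotone F → (∀ γ, ∃ n, γ ∈ F n) → (∀ n, (1 : Γ) ∈ F n) →
    (∀ n, ({v : V n | ¬ InjOn (fun γ : Γ => γ • v) (F n)}.ncard : ℝ) ≤
      (1 / ((n : ℝ) + 1)) * Nat.card (V n)) →
    IsSofic (haarG Γ) (fun n => mod Γ (V n)) (fun n => vol Γ (V n))

/-- A free ergodic action `K × C` with a continuous character. -/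
def S_ERG : Prop :=
  ∀ (Γ : Type) [Group Γ] [Countable Γ] [TopologicalSpace Γ] [DiscreteTopology Γ]
    (Q : ℕ → Type) [∀ n, Group (Q n)] [∀ n, Finite (Q n)] (π : ∀ n, Γ →* Q n),
    (∀ γ, (∀ n, π n γ = 1) → γ = 1) → ∀ χ : Γ →* ℤˣ,
    ∃ (X : Type) (_ : TopologicalSpace X) (_ : PolishSpace X) (_ : MeasurableSpace X)
      (_ : BorelSpace X) (_ : MulAction (GG Γ) X) (_ : ContinuousSMul (GG Γ) X)
      (μ : ProbabilityMeasure X) (ρ : X → X → ℝ) (σ : X → ℝ),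
      ErgodicSMul (GG Γ) X (μ : Measure X) ∧ (∀ (x : X) (g : GG Γ), g • x = x → g = 1) ∧
      IsGenerating (GG Γ) ρ ∧ Continuous σ ∧ (∀ x, σ x = 1 ∨ σ x = -1) ∧
      ∀ (g : GG Γ) (x : X), σ (g • x) = (((χ g.2 : ℤˣ) : ℤ) : ℝ) * σ x

/-- The actions with a continuous character have entropy `-∞`. -/
def S_NEG : Prop :=
  ∀ (p : ℕ → ℕ) [∀ n, NeZero (p n)] (X : Type) [TopologicalSpace X] [PolishSpace X]
    [MeasurableSpace X] [BorelSpace X] [MulAction (GG Aff) X] [ContinuousSMul (GG Aff) X]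
    (μ : ProbabilityMeasure X) (ρ : X → X → ℝ) (σ : X → ℝ), IsGenerating (GG Aff) ρ →
    Continuous σ → (∀ x, σ x = 1 ∨ σ x = -1) →
    (∀ (g : GG Aff) (x : X), σ (g • x) = (((chi g.2 : ℤˣ) : ℤ) : ℝ) * σ x) →
    soficEntropy (fun n => mod Aff (Tor (p n))) (fun n => vol Aff (Tor (p n))) ρ μ = ⊥

/-- In an essentially free action the elements of a compact subset `D ∌ 0` of `K` move the points
of a large open set uniformly. -/
def S_FREE : Prop :=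
  ∀ (Γ : Type) [Group Γ] [Countable Γ] [TopologicalSpace Γ] [DiscreteTopology Γ]
    (X : Type) [TopologicalSpace X] [PolishSpace X] [MeasurableSpace X] [BorelSpace X]
    [MulAction (GG Γ) X] [ContinuousSMul (GG Γ) X] (μ : ProbabilityMeasure X) (ρ : X → X → ℝ),
    IsGenerating (GG Γ) ρ → (∀ᵐ x ∂(μ : Measure X), ∀ g : GG Γ, g • x = x → g = 1) →
    ∀ D : Set (KK Γ), IsCompact D → (0 : KK Γ) ∉ D → ∀ θ : ℝ, 0 < θ →
    ∃ (E : Finset (GG Γ)) (c : ℝ) (A : Set X), 0 < c ∧ IsOpen A ∧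
      1 - θ < ((μ : Measure X) A).toReal ∧
      ∀ x ∈ A, ∀ κ ∈ D, ∃ g ∈ E, c < ρ (g • ik κ • x) (g • x)

/-- The code action: `κ_a(v)(h, j) = a(h⁻¹ v)_j`. -/
def kap {Γ V : Type} [Group Γ] [MulAction Γ V] {m : ℕ} (a : V → Fin m → ZMod 2) (v : V) : KK Γ :=
  fun z => if h : z.2 < m then a (z.1⁻¹ • v) ⟨z.2, h⟩ else 0

/-- Twisting by a code word changes neither the approximate equivariance nor the law very much. -/
def S_LAW : Prop :=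
  ∀ (Γ : Type) [Group Γ] [Countable Γ] [TopologicalSpace Γ] [DiscreteTopology Γ]
    (V : Type) [MulAction Γ V] [Finite V] [TopologicalSpace V] [DiscreteTopology V]
    [MeasurableSpace V] [DiscreteMeasurableSpace V]
    (X : Type) [TopologicalSpace X] [PolishSpace X] [MeasurableSpace X] [BorelSpace X]
    [MulAction (GG Γ) X] [ContinuousSMul (GG Γ) X] (ρ' : X → X → ℝ) (B : ℝ),
    (∀ x, ρ' x x = 0) → (∀ x y, ρ' x y = ρ' y x) → (∀ x y z, ρ' x z ≤ ρ' x y + ρ' y z) →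
    (∀ x y, ρ' x y ≤ B) → Continuous (fun z : X × X => ρ' z.1 z.2) →
    (∀ (k : KK Γ) (x y : X), ρ' (ik k • x) (ik k • y) = ρ' x y) →
    ∀ (φ : KK Γ × V → X), Measurable φ → ∀ δ : ℝ,
    (∀ k : KK Γ, ∫ p, ρ' (φ (act (ik k) p)) (ik k • φ p) ∂(vol Γ V) ≤ δ) →
    ∀ (m : ℕ) (a : V → Fin m → ZMod 2),
      Measurable (fun p : KK Γ × V => ik (kap a p.2 : KK Γ) • φ p) ∧
      (∀ g : GG Γ, ∫ p, ρ' (ik (kap a (act g p).2 : KK Γ) • φ (act g p))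
          (g • ik (kap a p.2 : KK Γ) • φ p) ∂(vol Γ V) =
        ∫ p, ρ' (φ (act g p)) (g • φ p) ∂(vol Γ V)) ∧
      ∀ f : X → ℝ, Continuous f → (∀ x y, |f x - f y| ≤ ρ' x y) →
        |∫ p, f (ik (kap a p.2 : KK Γ) • φ p) ∂(vol Γ V) - ∫ p, f (φ p) ∂(vol Γ V)| ≤ 2 * δ

/-- The gap theorem. -/
def S_GAP : Prop :=
  ∀ (Γ : Type) [Group Γ] [Countable Γ] [TopologicalSpace Γ] [DiscreteTopology Γ]
    (V : ℕ → Type) [∀ n, MulAction Γ (V n)] [∀ n, Finite (V n)] [∀ n, Nonempty (V n)]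
    [∀ n, TopologicalSpace (V n)] [∀ n, DiscreteTopology (V n)]
    [∀ n, MeasurableSpace (V n)] [∀ n, DiscreteMeasurableSpace (V n)]
    (X : Type) [TopologicalSpace X] [PolishSpace X] [MeasurableSpace X] [BorelSpace X]
    [MulAction (GG Γ) X] [ContinuousSMul (GG Γ) X] (μ : ProbabilityMeasure X) (ρ : X → X → ℝ),
    IsGenerating (GG Γ) ρ → (∀ᵐ x ∂(μ : Measure X), ∀ g : GG Γ, g • x = x → g = 1) →
    soficEntropy (fun n => mod Γ (V n)) (fun n => vol Γ (V n)) ρ μ = ⊥ ∨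
    soficEntropy (fun n => mod Γ (V n)) (fun n => vol Γ (V n)) ρ μ = ⊤

end Pool.Agent.Y316.EV
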