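import Pool.Agent.Y316.EV.Gap2
import Pool.Agent.Y316.EV.Stm2
import Pool.Agent.Y316.EV.Seq
import Pool.Agent.Y79.EV.Code
import Pool.Agent.Y781.EV.Top
import Pool.Agent.Y564.EV.Sof
import Pool.Agent.Y761.EV.Erg
import Pool.Agent.Y761.EV.Free
import Pool.Agent.Y379.EV.Neg
import Pool.Agent.Y688.EV.Psd

set_option autoImplicit false
set_option linter.unusedSectionVars false

/-!
# Entropy values of free ergodic actions: the assembly
-/

namespace Pool.Agent.Y316.EV

open MeasureTheory Set Filter Topology Pool.Agent.Y316.PC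
open scoped ENNReal NNReal

section defs

variable {G : Type} [Group G] [TopologicalSpace G] {M : ℕ → Type}
  [∀ i, TopologicalSpace (M i)] [∀ i, MeasurableSpace (M i)]

/-- `t` is the entropy `h_Σ(G, X, μ)` of an essentially free probability-measure-preserving
continuous action of `G` on a Polish space `X` (computed with a bounded continuous dynamically
generating pseudometric `ρ`). -/
def FreeValue (S : ∀ i, LocalSpace G (M i)) (v : ∀ i, Measure (M i)) (t : EReal) : Prop :=
  ∃ (X : Type) (_ : TopologicalSpace X) (_ : PolishSpace X) (_ : MeasurableSpace X)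
    (_ : BorelSpace X) (_ : MulAction G X) (_ : ContinuousSMul G X) (μ : ProbabilityMeasure X)
    (ρ : X → X → ℝ), SMulInvariantMeasure G X (μ : Measure X) ∧
    (∀ᵐ x ∂(μ : Measure X), ∀ g : G, g • x = x → g = 1) ∧ IsGenerating G ρ ∧
    soficEntropy S v ρ μ = t

/-- `t` is the entropy `h_Σ(G, X, μ)` of an essentially free ergodic
probability-measure-preserving continuous action of `G` on a Polish space `X`. -/
def FreeErgodicValue (S : ∀ i, LocalSpace G (M i)) (v : ∀ i, Measure (M i)) (t : EReal) : Prop :=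
  ∃ (X : Type) (_ : TopologicalSpace X) (_ : PolishSpace X) (_ : MeasurableSpace X)
    (_ : BorelSpace X) (_ : MulAction G X) (_ : ContinuousSMul G X) (μ : ProbabilityMeasure X)
    (ρ : X → X → ℝ), ErgodicSMul G X (μ : Measure X) ∧
    (∀ᵐ x ∂(μ : Measure X), ∀ g : G, g • x = x → g = 1) ∧ IsGenerating G ρ ∧
    soficEntropy S v ρ μ = t

/-- The base entropy `h_Σ(G)`: the infimum of the entropies of the essentially free
probability-measure-preserving actions. -/
noncomputable def baseEntropy (S : ∀ i, LocalSpace G (M i)) (v : ∀ i, Measure (M i)) : EReal :=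
  sInf {t | FreeValue S v t}

theorem FreeErgodicValue.freeValue {S : ∀ i, LocalSpace G (M i)} {v : ∀ i, Measure (M i)}
    {t : EReal} (h : FreeErgodicValue S v t) : FreeValue S v t := by
  obtain ⟨X, i1, i2, i3, i4, i5, i6, μ, ρ, h1, h2, h3, h4⟩ := h
  exact ⟨X, i1, i2, i3, i4, i5, i6, μ, ρ, h1.toSMulInvariantMeasure, h2, h3, h4⟩

end defs

theorem main (hR : S_RELT) (hB : S_BIG) :
    ∃ (G : Type) (_ : Group G) (_ : TopologicalSpace G) (_ : IsTopologicalGroup G)
      (_ : T2Space G) (_ : LocallyCompactSpace G) (_ : SecondCountableTopology G)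
      (_ : MeasurableSpace G) (_ : BorelSpace G) (haar : Measure G)
      (M : ℕ → Type) (_ : ∀ i, TopologicalSpace (M i)) (_ : ∀ i, MeasurableSpace (M i))
      (S : ∀ i, LocalSpace G (M i)) (v : ∀ i, Measure (M i)),
      NoncompactSpace G ∧ haar.IsHaarMeasure ∧ haar.IsMulRightInvariant ∧
      (∀ i, T2Space (M i) ∧ LocallyCompactSpace (M i) ∧ SecondCountableTopology (M i) ∧
        BorelSpace (M i)) ∧
      IsSofic haar S v ∧ baseEntropy S v = ⊥ ∧
      (∀ t, FreeValue S v t → t = ⊥ ∨ t = ⊤) ∧ {t | FreeErgodicValue S v t} = {⊥, ⊤} ∧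
      ∀ t : ℝ, baseEntropy S v ≤ (t : EReal) ∧ ¬ FreeErgodicValue S v (t : EReal) := by
  obtain ⟨⟨F, p, hFm, hFu, hF1, hp, hFp⟩, hres⟩ := SQ.seq
  obtain ⟨hTG, hT2, hLC, hSC, hBo, hNC, hHaar, hRI⟩ := Pool.Agent.Y781.EV.top Aff
  have hp0 : ∀ n, NeZero (p n) := fun n => ⟨(hp n).ne_zero⟩
  have hgap : ∀ t, FreeValue (fun n => mod Aff (Tor (p n))) (fun n => vol Aff (Tor (p n))) t →
      t = ⊥ ∨ t = ⊤ := by
    rintro t ⟨X, i1, i2, i3, i4, i5, i6, μ, ρ, h1, h2, h3, rfl⟩
    exact gap Pool.Agent.Y688.EV.psd Pool.Agent.Y761.EV.free Pool.Agent.Y79.EV.code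
      Pool.Agent.Y781.EV.top Aff (fun n => Tor (p n)) X μ ρ h3 h2
  have hneg : FreeErgodicValue (fun n => mod Aff (Tor (p n))) (fun n => vol Aff (Tor (p n))) ⊥ := by
    obtain ⟨X, i1, i2, i3, i4, i5, i6, μ, ρ, σ, h1, h2, h3, h4, h5, h6⟩ :=
      Pool.Agent.Y761.EV.erg Aff (fun n => Equiv.Perm (Tor (n + 1)))
        (fun n => MulAction.toPermHom Aff (Tor (n + 1))) (fun γ hγ => hres γ fun n x => by
          have h1 := hγ n
          have h2 := congrArg (fun e : Equiv.Perm (Tor (n + 1)) => e x) h1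
          exact h2) chi
    exact ⟨X, i1, i2, i3, i4, i5, i6, μ, ρ, h1, Eventually.of_forall h2, h3,
      Pool.Agent.Y379.EV.neg hR Pool.Agent.Y688.EV.psd p X μ ρ σ h3 h4 h5 h6⟩
  have hpos : FreeErgodicValue (fun n => mod Aff (Tor (p n))) (fun n => vol Aff (Tor (p n))) ⊤ := by
    obtain ⟨X, i1, i2, i3, i4, i5, i6, μ, ρ, h1, h2, h3, h4⟩ :=
      hB Aff (fun n => Tor (p n)) F hFm hFu hFp
    have h5 : FreeErgodicValue (fun n => mod Aff (Tor (p n))) (fun n => vol Aff (Tor (p n)))
        (soficEntropy (fun n => mod Aff (Tor (p n))) (fun n => vol Aff (Tor (p n))) ρ μ) :=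
      ⟨X, i1, i2, i3, i4, i5, i6, μ, ρ, h1, h2, h3, rfl⟩
    rcases hgap _ h5.freeValue with h6 | h6
    · exact absurd h6 h4
    · rwa [h6] at h5
  have hbase : baseEntropy (fun n => mod Aff (Tor (p n))) (fun n => vol Aff (Tor (p n))) = ⊥ :=
    le_antisymm (sInf_le hneg.freeValue) bot_le
  refine ⟨GG Aff, inferInstance, inferInstance, hTG, hT2, hLC, hSC, inferInstance, hBo, haarG Aff,
    fun n => KK Aff × Tor (p n), inferInstance, inferInstance, fun n => mod Aff (Tor (p n)),
    fun n => vol Aff (Tor (p n)), hNC inferInstance, hHaar, hRI, fun i => ⟨inferInstance,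
      inferInstance, inferInstance, inferInstance⟩,
    Pool.Agent.Y564.EV.sof Aff (fun n => Tor (p n)) F hFm hFu hF1 hFp, hbase, hgap, ?_, ?_⟩
  · ext t
    constructor
    · intro ht
      exact hgap t (FreeErgodicValue.freeValue ht)
    · rintro (rfl | rfl)
      · exact hneg
      · exact hpos
  · intro t
    refine ⟨by rw [hbase]; exact bot_le, fun h => ?_⟩
    rcases hgap _ h.freeValue with h1 | h1
    · exact EReal.coe_ne_bot t h1
    · exact EReal.coe_ne_top t h1

end Pool.Agent.Y316.EV
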