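import Pool.Agent.Y316.EV.Sup
import Pool.Agent.Y316.PC.Weak

set_option autoImplicit false
set_option linter.unusedSectionVars false

/-!
# The gap theorem
-/

namespace Pool.Agent.Y316.EV

open MeasureTheory Set Filter Topology Pool.Agent.Y316.PC
open scoped ENNReal NNReal BoundedContinuousFunction

section sep

variable {Γ : Type} [Group Γ] [Countable Γ] [TopologicalSpace Γ] [DiscreteTopology Γ]
  {V : Type} [MulAction Γ V] [Fintype V]
  [MeasurableSpace V] [DiscreteMeasurableSpace V]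
  {X : Type} [TopologicalSpace X] [PolishSpace X] [MeasurableSpace X] [BorelSpace X]
  [MulAction (GG Γ) X] [ContinuousSMul (GG Γ) X] {ρ : X → X → ℝ} {B : ℝ}

theorem vol_fiber (T : Set V) : (vol Γ V {p | p.2 ∈ T}).toReal = T.ncard := by
  have h1 : {p : KK Γ × V | p.2 ∈ T} = univ ×ˢ T := by
    ext p
    simp
  rw [h1]
  unfold vol
  rw [Measure.prod_prod, measure_univ, one_mul, Measure.count_apply MeasurableSet.of_discrete,
    Set.ncard_def]
  have h2 : (T.encard : ℝ≥0∞) = ((T.encard.toNat : ℕ∞) : ℝ≥0∞) := by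
    rw [ENat.natCast_toNat (Set.encard_ne_top_iff.mpr T.toFinite)]
  rw [h2]
  simp

theorem sep (hn : ∀ x y, 0 ≤ ρ x y) (hs : ∀ x y, ρ x y = ρ y x)
    (htr : ∀ x y z, ρ x z ≤ ρ x y + ρ y z)
    (hB : ∀ x y, ρ x y ≤ B) (hc : Continuous (fun z : X × X => ρ z.1 z.2))
    {D : Set (KK Γ)} {E : Finset (GG Γ)} {c : ℝ} (hc0 : 0 < c) {A : Set X} (hA : IsOpen A)
    (hfree : ∀ x ∈ A, ∀ κ ∈ D, ∃ g ∈ E, c < ρ (g • ik κ • x) (g • x))
    {ψ ψ' : KK Γ × V → X} (hψ : Measurable ψ) (hψ' : Measurable ψ') {κ : V → KK Γ}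
    (hκ : ∀ p, ψ' p = ik (κ p.2) • ψ p) {T : Set V} (hT : ∀ v ∈ T, κ v ∈ D)
    (hTc : (Fintype.card V : ℝ) / 4 ≤ (T.ncard : ℝ))
    (hAv : (vol Γ V (ψ ⁻¹' A)ᶜ).toReal ≤ (Fintype.card V : ℝ) / 16) {δ : ℝ}
    (h1 : ∀ g ∈ E, ∫ p, ρ (ψ (act g p)) (g • ψ p) ∂(vol Γ V) ≤ δ * Fintype.card V)
    (h2 : ∀ g ∈ E, ∫ p, ρ (ψ' (act g p)) (g • ψ' p) ∂(vol Γ V) ≤ δ * Fintype.card V) :
    c * (3 / 16 * Fintype.card V) ≤
      E.card * (2 * (δ * Fintype.card V) + ∫ p, ρ (ψ' p) (ψ p) ∂(vol Γ V)) := by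
  have hint : ∀ {u w : KK Γ × V → X}, Measurable u → Measurable w →
      Integrable (fun k => ρ (u k) (w k)) (vol Γ V) := by
    intro u w hu hw
    refine Integrable.of_bound (hc.measurable.comp (hu.prodMk hw)).aestronglyMeasurable B
      (Eventually.of_forall fun p => ?_)
    rw [Real.norm_eq_abs, abs_of_nonneg (hn _ _)]
    exact hB _ _
  have hsm : ∀ g : GG Γ, Measurable (fun x : X => g • x) := fun g =>
    (continuous_const_smul g).measurable
  -- upper bound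
  have hup : ∀ g ∈ E, ∫ p, ρ (g • ψ' p) (g • ψ p) ∂(vol Γ V) ≤
      2 * (δ * Fintype.card V) + ∫ p, ρ (ψ' p) (ψ p) ∂(vol Γ V) := by
    intro g hg
    have hma := measurable_act (Γ := Γ) (V := V) g
    have e1 : ∫ p, ρ (ψ' (act g p)) (ψ (act g p)) ∂(vol Γ V) = ∫ p, ρ (ψ' p) (ψ p) ∂(vol Γ V) := by
      have e2 := (mp_act (V := V) g).map_eq
      have e3 : ∫ p, ρ (ψ' p) (ψ p) ∂((vol Γ V).map (act g)) =
          ∫ p, ρ (ψ' (act g p)) (ψ (act g p)) ∂(vol Γ V) := by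
        rw [integral_map hma.aemeasurable]
        exact (hc.measurable.comp (hψ'.prodMk hψ)).aestronglyMeasurable
      rw [← e3, e2]
    have i1 : Integrable (fun p => ρ (ψ' (act g p)) (g • ψ' p)) (vol Γ V) :=
      hint (hψ'.comp hma) ((hsm g).comp hψ')
    have i2 : Integrable (fun p => ρ (ψ' (act g p)) (ψ (act g p))) (vol Γ V) :=
      hint (hψ'.comp hma) (hψ.comp hma)
    have i3 : Integrable (fun p => ρ (ψ (act g p)) (g • ψ p)) (vol Γ V) :=
      hint (hψ.comp hma) ((hsm g).comp hψ)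
    have i12 : Integrable (fun p => ρ (ψ' (act g p)) (g • ψ' p) + ρ (ψ' (act g p)) (ψ (act g p)))
      (vol Γ V) := i1.add i2
    have e4 : ∫ p, ρ (g • ψ' p) (g • ψ p) ∂(vol Γ V) ≤
        ∫ p, ((ρ (ψ' (act g p)) (g • ψ' p) + ρ (ψ' (act g p)) (ψ (act g p))) +
          ρ (ψ (act g p)) (g • ψ p)) ∂(vol Γ V) := by
      refine integral_mono (hint ((hsm g).comp hψ') ((hsm g).comp hψ)) ?_ fun p => ?_
      · exact i12.add i3
      · have e5 := htr (g • ψ' p) (ψ' (act g p)) (g • ψ p)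
        have e6 := htr (ψ' (act g p)) (ψ (act g p)) (g • ψ p)
        rw [hs (g • ψ' p) (ψ' (act g p))] at e5
        show ρ (g • ψ' p) (g • ψ p) ≤ _
        linarith
    rw [integral_add i12 i3, integral_add i1 i2, e1] at e4
    have e7 := h1 g hg
    have e8 := h2 g hg
    linarith
  -- lower bound
  set W : Set (KK Γ × V) := {p | p.2 ∈ T} ∩ ψ ⁻¹' A with hW
  have hTm : MeasurableSet {p : KK Γ × V | p.2 ∈ T} :=
    (MeasurableSet.of_discrete (s := T)).preimage measurable_snd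
  have hAm : MeasurableSet (ψ ⁻¹' A) := hA.measurableSet.preimage hψ
  have hWm : MeasurableSet W := hTm.inter hAm
  have hWv : 3 / 16 * (Fintype.card V : ℝ) ≤ (vol Γ V W).toReal := by
    have e1 : {p : KK Γ × V | p.2 ∈ T} ⊆ W ∪ (ψ ⁻¹' A)ᶜ := by
      intro p hp
      by_cases h : p ∈ ψ ⁻¹' A
      · exact Or.inl ⟨hp, h⟩
      · exact Or.inr h
    have e2 : (vol Γ V {p : KK Γ × V | p.2 ∈ T}).toReal ≤
        (vol Γ V W).toReal + (vol Γ V (ψ ⁻¹' A)ᶜ).toReal := by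
      rw [← ENNReal.toReal_add (measure_ne_top _ _) (measure_ne_top _ _)]
      exact ENNReal.toReal_mono (ENNReal.add_ne_top.mpr ⟨measure_ne_top _ _, measure_ne_top _ _⟩)
        ((measure_mono e1).trans (measure_union_le _ _))
    rw [vol_fiber] at e2
    linarith
  have hi : ∀ g : GG Γ, Integrable (fun p => ρ (g • ψ' p) (g • ψ p)) (vol Γ V) := fun g =>
    hint ((hsm g).comp hψ') ((hsm g).comp hψ)
  have hlow : c * (vol Γ V W).toReal ≤
      ∫ p, ∑ g ∈ E, ρ (g • ψ' p) (g • ψ p) ∂(vol Γ V) := by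
    have e1 : ∫ p, W.indicator (fun _ => c) p ∂(vol Γ V) ≤
        ∫ p, ∑ g ∈ E, ρ (g • ψ' p) (g • ψ p) ∂(vol Γ V) := by
      refine integral_mono ((integrable_const c).indicator hWm)
        (integrable_finsetSum _ fun g _ => hi g) fun p => ?_
      show W.indicator (fun _ => c) p ≤ ∑ g ∈ E, ρ (g • ψ' p) (g • ψ p)
      by_cases hp : p ∈ W
      · rw [indicator_of_mem hp]
        obtain ⟨g, hg, hgc⟩ := hfree (ψ p) hp.2 (κ p.2) (hT _ hp.1)
        rw [← hκ p] at hgc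
        exact hgc.le.trans (Finset.single_le_sum (f := fun g : GG Γ => ρ (g • ψ' p) (g • ψ p))
          (fun g _ => hn _ _) hg)
      · rw [indicator_of_notMem hp]
        exact Finset.sum_nonneg fun g _ => hn _ _
    rw [integral_indicator hWm, setIntegral_const, smul_eq_mul] at e1
    rw [mul_comm]
    exact e1
  rw [integral_finsetSum _ fun g _ => hi g] at hlow
  calc c * (3 / 16 * Fintype.card V) ≤ c * (vol Γ V W).toReal :=
        mul_le_mul_of_nonneg_left hWv hc0.le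
    _ ≤ ∑ g ∈ E, ∫ p, ρ (g • ψ' p) (g • ψ p) ∂(vol Γ V) := hlow
    _ ≤ ∑ g ∈ E, (2 * (δ * Fintype.card V) + ∫ p, ρ (ψ' p) (ψ p) ∂(vol Γ V)) :=
        Finset.sum_le_sum hup
    _ = E.card * (2 * (δ * Fintype.card V) + ∫ p, ρ (ψ' p) (ψ p) ∂(vol Γ V)) := by
        rw [Finset.sum_const, nsmul_eq_mul]

/-- the compact set of the elements of `K` with a nonzero coordinate `(1, j)`, `j < m` -/
def DD (Γ : Type) [Group Γ] (m : ℕ) : Set (KK Γ) := {κ | ∃ j < m, κ ((1 : Γ), j) ≠ 0}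

theorem isCompact_DD (m : ℕ) : IsCompact (DD Γ m) := by
  have h1 : DD Γ m = ⋃ j ∈ Set.Iio m, {κ : KK Γ | κ ((1 : Γ), j) ≠ 0} := by
    ext κ
    simp [DD]
  have h2 : IsClosed (DD Γ m) := by
    rw [h1]
    refine Set.Finite.isClosed_biUnion (Set.finite_Iio m) fun j _ => ?_
    have h3 : Continuous (fun κ : KK Γ => κ ((1 : Γ), j)) := continuous_apply _
    exact (isClosed_discrete ({0}ᶜ : Set (ZMod 2))).preimage h3
  exact h2.isCompact

theorem zero_notMem_DD (m : ℕ) : (0 : KK Γ) ∉ DD Γ m := by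
  rintro ⟨j, -, hj⟩
  exact hj rfl

theorem kap_add_mem {m : ℕ} {a b : V → Fin m → ZMod 2} {v : V} (h : a v ≠ b v) :
    (kap a v + kap b v : KK Γ) ∈ DD Γ m := by
  obtain ⟨j, hj⟩ := Function.ne_iff.mp h
  refine ⟨j, j.2, ?_⟩
  show (if h : (j : ℕ) < m then a ((1 : Γ)⁻¹ • v) ⟨(j : ℕ), h⟩ else 0) +
    (if h : (j : ℕ) < m then b ((1 : Γ)⁻¹ • v) ⟨(j : ℕ), h⟩ else 0) ≠ 0
  rw [dif_pos j.2, dif_pos j.2, inv_one, one_smul]
  intro h0
  apply hj
  have h1 : a v j = -b v j := eq_neg_of_add_eq_zero_left h0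
  rw [h1]
  exact CharTwo.neg_eq _

variable [TopologicalSpace V] [DiscreteTopology V]

theorem level (hρ : IsGenerating (GG Γ) ρ) (hBρ : ∀ x y, ρ x y ≤ B) {μ : ProbabilityMeasure X}
    {O : Set (ProbabilityMeasure X)} {U : Set (GG Γ)} {δ : ℝ} {m : ℕ} {E : Finset (GG Γ)}
    {c : ℝ} (hc0 : 0 < c) {A : Set X} (hA : IsOpen A)
    (hfree : ∀ x ∈ A, ∀ κ ∈ DD Γ m, ∃ g ∈ E, c < ρ (g • ik κ • x) (g • x))
    {J : Type} {f : J → (X →ᵇ ℝ)} {η : ℝ}
    (hη : ∀ κ : ProbabilityMeasure X,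
      (∀ j, |∫ y, f j y ∂(κ : Measure X) - ∫ y, f j y ∂(μ : Measure X)| < η) →
        κ ∈ {κ : ProbabilityMeasure X | κ ∈ O ∧ ENNReal.ofReal (15 / 16) < (κ : Measure X) A})
    {ρ' : X → X → ℝ} {B' : ℝ} (h0' : ∀ x, ρ' x x = 0) (hs' : ∀ x y, ρ' x y = ρ' y x)
    (ht' : ∀ x y z, ρ' x z ≤ ρ' x y + ρ' y z) (hB' : ∀ x y, ρ' x y ≤ B')
    (hc' : Continuous (fun z : X × X => ρ' z.1 z.2))
    (hK' : ∀ (k : KK Γ) (x y : X), ρ' (ik k • x) (ik k • y) = ρ' x y)
    (hle : ∀ x y, ρ x y ≤ ρ' x y) (hfle : ∀ j x y, |f j x - f j y| ≤ ρ' x y)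
    {δ₂ : ℝ} (hδ₂ : δ₂ ≤ δ) (hδη : 4 * δ₂ ≤ η) (hδc : δ₂ ≤ c / (64 * (E.card + 1)))
    (hδ0 : 0 < δ₂) (hN : 0 < Fintype.card V)
    {φ : KK Γ × V → X} (hφ : Measurable φ)
    (hU : ∀ g ∈ U, ∫ p, ρ' (φ (act g p)) (g • φ p) ∂(vol Γ V) < δ₂ * Fintype.card V)
    (hE : ∀ g ∈ E, ∫ p, ρ' (φ (act g p)) (g • φ p) ∂(vol Γ V) < δ₂ * Fintype.card V)
    (hk : ∀ k : KK Γ, ∫ p, ρ' (φ (act (ik k) p)) (ik k • φ p) ∂(vol Γ V) <
      δ₂ * Fintype.card V)
    (hlaw : ∀ j, |∫ p, f j (φ p) ∂(vol Γ V) - (∫ y, f j y ∂(μ : Measure X)) * Fintype.card V| <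
      η / 2 * Fintype.card V)
    {C : Finset (V → Fin m → ZMod 2)} (hC0 : C.Nonempty)
    (hC : ∀ a ∈ C, ∀ b ∈ C, a ≠ b → (Fintype.card V : ℝ) / 4 ≤ ({v : V | a v ≠ b v}.ncard : ℝ)) :
    ((Real.log C.card : ℝ) : EReal) ≤
      logSep (vol Γ V) ρ (c / (16 * (E.card + 1))) (Map (mod Γ V) (vol Γ V) ρ U δ O) := by
  classical
  have hN' : (0 : ℝ) < Fintype.card V := by exact_mod_cast hN
  have hV0 : vol Γ V univ ≠ 0 := by
    intro h
    have h1 := vol_univ (Γ := Γ) (V := V)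
    rw [h, ENNReal.toReal_zero] at h1
    linarith
  have hnn : ∀ x y, 0 ≤ ρ x y := by
    intro x y
    have h1 := hρ.triangle x y x
    rw [hρ.self, hρ.symm y x] at h1
    linarith
  have hnn' : ∀ x y, 0 ≤ ρ' x y := fun x y => (hnn x y).trans (hle x y)
  have hL := fun a : V → Fin m → ZMod 2 => law Γ V X ρ' B' h0' hs' ht' hB' hc' hK' φ hφ
    (δ₂ * Fintype.card V) (fun k => (hk k).le) m a
  set Φ : (V → Fin m → ZMod 2) → (KK Γ × V → X) := fun a p => ik (kap a p.2 : KK Γ) • φ p with hΦ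
  have hΦm : ∀ a, Measurable (Φ a) := fun a => (hL a).1
  have hsm : ∀ g : GG Γ, Measurable (fun x : X => g • x) := fun g =>
    (continuous_const_smul g).measurable
  have hint : ∀ {u w : KK Γ × V → X}, Measurable u → Measurable w →
      Integrable (fun k => ρ (u k) (w k)) (vol Γ V) := by
    intro u w hu hw
    refine Integrable.of_bound (hρ.continuous.measurable.comp (hu.prodMk hw)).aestronglyMeasurable B
      (Eventually.of_forall fun p => ?_)
    rw [Real.norm_eq_abs, abs_of_nonneg (hnn _ _)]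
    exact hBρ _ _
  have hint' : ∀ {u w : KK Γ × V → X}, Measurable u → Measurable w →
      Integrable (fun k => ρ' (u k) (w k)) (vol Γ V) := by
    intro u w hu hw
    refine Integrable.of_bound (hc'.measurable.comp (hu.prodMk hw)).aestronglyMeasurable B'
      (Eventually.of_forall fun p => ?_)
    rw [Real.norm_eq_abs, abs_of_nonneg (hnn' _ _)]
    exact hB' _ _
  -- approximate equivariance of the twisted maps
  have heq : ∀ a g, ∫ p, ρ (Φ a (act g p)) (g • Φ a p) ∂(vol Γ V) ≤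
      ∫ p, ρ' (φ (act g p)) (g • φ p) ∂(vol Γ V) := by
    intro a g
    have e1 := (hL a).2.1 g
    rw [← e1]
    have hma := measurable_act (Γ := Γ) (V := V) g
    exact integral_mono (hint ((hΦm a).comp hma) ((hsm g).comp (hΦm a)))
      (hint' ((hΦm a).comp hma) ((hsm g).comp (hΦm a))) fun p => hle _ _
  -- the law
  have hlw : ∀ a, ∃ κ ∈ {κ : ProbabilityMeasure X | κ ∈ O ∧
      ENNReal.ofReal (15 / 16) < (κ : Measure X) A},
      (κ : Measure X) = (vol Γ V univ)⁻¹ • (vol Γ V).map (Φ a) := by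
    intro a
    refine weak_mem (hΦm a) hV0 hη fun j => ?_
    rw [vol_univ]
    have e1 := (hL a).2.2 (f j) (f j).continuous (hfle j)
    have e2 := hlaw j
    have e3 : ∫ p, f j (Φ a p) ∂(vol Γ V) - (∫ y, f j y ∂(μ : Measure X)) * Fintype.card V =
        (∫ p, f j (Φ a p) ∂(vol Γ V) - ∫ p, f j (φ p) ∂(vol Γ V)) +
        (∫ p, f j (φ p) ∂(vol Γ V) - (∫ y, f j y ∂(μ : Measure X)) * Fintype.card V) := by ring
    rw [e3]
    refine (abs_add_le _ _).trans_lt ?_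
    have e4 : 4 * δ₂ * Fintype.card V ≤ η * Fintype.card V :=
      mul_le_mul_of_nonneg_right hδη hN'.le
    have e5 : |∫ p, f j (Φ a p) ∂(vol Γ V) - ∫ p, f j (φ p) ∂(vol Γ V)| ≤
      2 * (δ₂ * Fintype.card V) := e1
    linarith
  have hmem : ∀ a, Φ a ∈ Map (mod Γ V) (vol Γ V) ρ U δ O := by
    intro a
    refine ⟨hΦm a, fun g hg => ?_, ?_⟩
    · have e1 : {p : KK Γ × V | (g, p) ∈ (mod Γ V).dom} = univ := rfl
      rw [e1, setIntegral_univ, vol_univ, div_lt_iff₀ hN']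
      have e2 : ∫ p, ρ (Φ a ((mod Γ V).act g p)) (g • Φ a p) ∂(vol Γ V) ≤
        ∫ p, ρ' (φ (act g p)) (g • φ p) ∂(vol Γ V) := heq a g
      have e3 := hU g hg
      have e4 : δ₂ * Fintype.card V ≤ δ * Fintype.card V := mul_le_mul_of_nonneg_right hδ₂ hN'.le
      linarith
    · obtain ⟨κ, h1, h2⟩ := hlw a
      exact ⟨κ, h1.1, h2⟩
  have hAv : ∀ a, (vol Γ V (Φ a ⁻¹' A)ᶜ).toReal ≤ (Fintype.card V : ℝ) / 16 := by
    intro a
    obtain ⟨κ, h1, h2⟩ := hlw a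
    have h3 := h1.2
    rw [h2, Measure.smul_apply, Measure.map_apply (hΦm a) hA.measurableSet, smul_eq_mul,
      ENNReal.ofReal_lt_iff_lt_toReal (by norm_num)
        (ENNReal.mul_ne_top (ENNReal.inv_ne_top.mpr hV0) (measure_ne_top _ _)),
      ENNReal.toReal_mul, ENNReal.toReal_inv, vol_univ, ← div_eq_inv_mul, lt_div_iff₀ hN'] at h3
    have h4 : (vol Γ V (Φ a ⁻¹' A)).toReal + (vol Γ V (Φ a ⁻¹' A)ᶜ).toReal = Fintype.card V := by
      rw [← ENNReal.toReal_add (measure_ne_top _ _) (measure_ne_top _ _),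
        measure_add_measure_compl (hA.measurableSet.preimage (hΦm a)), vol_univ]
    linarith
  -- separation
  have hsep : ∀ a ∈ C, ∀ b ∈ C, a ≠ b →
      c / (16 * (E.card + 1)) < (∫ p, ρ (Φ a p) (Φ b p) ∂(vol Γ V)) / (vol Γ V univ).toReal := by
    intro a ha b hb hab
    have e1 := sep (D := DD Γ m) (E := E) hnn hρ.symm hρ.triangle hBρ hρ.continuous hc0 hA hfree
      (hΦm b) (hΦm a) (κ := fun v => kap a v + kap b v) (T := {v : V | a v ≠ b v}) (δ := δ₂)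
      (fun p => by
        show ik (kap a p.2 : KK Γ) • φ p = ik (kap a p.2 + kap b p.2 : KK Γ) •
          ik (kap b p.2 : KK Γ) • φ p
        rw [← mul_smul, ← ik_add, add_assoc, add_self_KK, add_zero])
      (fun v hv => kap_add_mem hv) (hC a ha b hb hab) (hAv b)
      (fun g hg => (heq b g).trans (hE g hg).le) (fun g hg => (heq a g).trans (hE g hg).le)
    rw [vol_univ, lt_div_iff₀ hN']
    set I := ∫ p, ρ (Φ a p) (Φ b p) ∂(vol Γ V) with hI
    have hI0 : 0 ≤ I := integral_nonneg fun _ => hnn _ _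
    set N : ℝ := (Fintype.card V : ℝ) with hNN
    set n : ℝ := (E.card : ℝ) with hn
    have hn0 : 0 ≤ n := Nat.cast_nonneg _
    have e2 : c * (3 / 16 * N) ≤ (n + 1) * (2 * (δ₂ * N) + I) := by
      refine e1.trans ?_
      have : 0 ≤ 2 * (δ₂ * N) + I := by positivity
      nlinarith
    have e3 : δ₂ * (64 * (n + 1)) ≤ c := by
      rwa [le_div_iff₀ (by positivity)] at hδc
    rw [div_mul_eq_mul_div, div_lt_iff₀ (by positivity)]
    have e4 : δ₂ * (64 * (n + 1)) * N ≤ c * N := mul_le_mul_of_nonneg_right e3 hN'.le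
    have e5 : 0 < c * N := by positivity
    nlinarith
  have hinj : Set.InjOn Φ (C : Set (V → Fin m → ZMod 2)) := by
    intro a ha b hb hab
    by_contra hne
    have e1 := hsep a ha b hb hne
    have e2 : ∫ p, ρ (Φ a p) (Φ b p) ∂(vol Γ V) = 0 := by
      rw [hab]
      simp [hρ.self]
    rw [e2, zero_div] at e1
    have e3 : 0 < c / (16 * ((E.card : ℝ) + 1)) := by positivity
    linarith
  have hcard : (C.image Φ).card = C.card := Finset.card_image_of_injOn hinj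
  unfold logSep
  rw [← hcard]
  refine le_iSup₂ (f := fun (s : Finset (KK Γ × V → X)) _ => ((Real.log s.card : ℝ) : EReal))
    (C.image Φ) ?_
  refine ⟨hC0.image Φ, ?_, ?_⟩
  · intro ψ hψ
    obtain ⟨a, -, rfl⟩ := Finset.mem_image.mp hψ
    exact hmem a
  · intro ψ hψ ψ' hψ' hne
    obtain ⟨a, ha, rfl⟩ := Finset.mem_image.mp hψ
    obtain ⟨b, hb, rfl⟩ := Finset.mem_image.mp hψ'
    exact hsep a ha b hb (fun h => hne (by rw [h]))

end sep

end Pool.Agent.Y316.EV
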