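import Pool.Agent.Y316.EV.Gap
import Pool.Agent.Y316.PC.Neg

set_option autoImplicit false
set_option linter.unusedSectionVars false

/-!
# The gap theorem: end of the proof
-/

namespace Pool.Agent.Y316.EV

open MeasureTheory Set Filter Topology Pool.Agent.Y316.PC
open scoped ENNReal NNReal BoundedContinuousFunction

theorem gap (hP : S_PSD) (hF : S_FREE) (hC : S_CODE) (hT : S_TOP) : S_GAP := by
  intro Γ _ _ _ _ V _ _ _ _ _ _ _ X _ _ _ _ _ _ μ ρ hρ hfr
  classical
  letI : MeasurableSpace Γ := ⊤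
  haveI : DiscreteMeasurableSpace Γ := ⟨fun _ => trivial⟩
  obtain ⟨hTG, -, hLC, -, -, -, -, -⟩ := hT Γ
  have hFT : ∀ n, Fintype (V n) := fun n => Fintype.ofFinite (V n)
  by_cases hbot : soficEntropy (fun n => mod Γ (V n)) (fun n => vol Γ (V n)) ρ μ = ⊥
  · exact Or.inl hbot
  right
  -- frequently nonempty
  have hfreq : ∀ (O : Set (ProbabilityMeasure X)), IsOpen O → μ ∈ O → ∀ U : Set (GG Γ), IsOpen U →
      IsCompact (closure U) → ∀ δ : ℝ, 0 < δ →
      ∃ᶠ n in atTop, (Map (mod Γ (V n)) (vol Γ (V n)) ρ U δ O).Nonempty := by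
    intro O hO hμO U hU hUc δ hδ
    by_contra hcon
    rw [not_frequently] at hcon
    apply hbot
    unfold soficEntropy
    rw [iSup₂_eq_bot]
    intro ε _
    refine le_antisymm ?_ bot_le
    refine (iInf₂_le O ⟨hO, hμO⟩).trans ?_
    refine (iInf₂_le U ⟨hU, hUc⟩).trans ?_
    refine (iInf₂_le δ hδ).trans ?_
    refine limsup_le_of_le (by isBoundedDefault) ?_
    filter_upwards [hcon] with n hn
    rw [Set.not_nonempty_iff_eq_empty] at hn
    have h1 := hFT n
    have h3 : (0 : ℝ) < Fintype.card (V n) := by exact_mod_cast Fintype.card_pos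
    rw [hn, logSep_empty, vol_univ, EReal.bot_div_of_pos_ne_top (by exact_mod_cast h3)
      (EReal.coe_ne_top _)]
  obtain ⟨Bρ, hBρ⟩ := hρ.bounded
  have hnn : ∀ x y, 0 ≤ ρ x y := by
    intro x y
    have h1 := hρ.triangle x y x
    rw [hρ.self, hρ.symm y x] at h1
    linarith
  -- lower bound for every m
  have hlow : ∀ m : ℕ, (((m : ℝ) / 2 * Real.log 2 - 1 : ℝ) : EReal) ≤
      soficEntropy (fun n => mod Γ (V n)) (fun n => vol Γ (V n)) ρ μ := by
    intro m
    obtain ⟨E, c, A, hc0, hA, hAμ, hAE⟩ := hF Γ X μ ρ hρ hfr (DD Γ m) (isCompact_DD m)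
      (zero_notMem_DD m) (1 / 16) (by norm_num)
    unfold soficEntropy
    refine le_trans ?_ (le_iSup₂ (f := fun (ε : ℝ) (_ : ε ∈ Ioi (0 : ℝ)) =>
      ⨅ O ∈ {O : Set (ProbabilityMeasure X) | IsOpen O ∧ μ ∈ O},
    ⨅ U ∈ {U : Set (GG Γ) | IsOpen U ∧ IsCompact (closure U)}, ⨅ δ ∈ Ioi (0 : ℝ),
      limsup (fun i => logSep (vol Γ (V i)) ρ ε (Map (mod Γ (V i)) (vol Γ (V i)) ρ U δ O) /
        ((vol Γ (V i) univ).toReal : EReal)) atTop) (c / (16 * (E.card + 1)))
      (mem_Ioi.mpr (by positivity)))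
    refine le_iInf₂ fun O hO => le_iInf₂ fun U hU => le_iInf₂ fun δ hδ => ?_
    rw [mem_Ioi] at hδ
    -- the neighbourhood of the measure
    set O1 : Set (ProbabilityMeasure X) :=
      {κ : ProbabilityMeasure X | κ ∈ O ∧ ENNReal.ofReal (15 / 16) < (κ : Measure X) A} with hO1
    have hO1o : IsOpen O1 := hO.1.inter (isOpen_lt_measure hA _)
    have hμO1 : μ ∈ O1 := by
      refine ⟨hO.2, ?_⟩
      rw [ENNReal.ofReal_lt_iff_lt_toReal (by norm_num) (measure_ne_top _ _)]
      linarith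
    obtain ⟨J, _, f, η, hη, hηO⟩ := weak_nbhd hO1o hμO1
    -- the pseudometrics
    set ρ1 : X → X → ℝ := fun x y => ρ x y + ∑ j, |f j x - f j y| with hρ1
    have h01 : ∀ x, ρ1 x x = 0 := fun x => by simp [hρ1, hρ.self]
    have hs1 : ∀ x y, ρ1 x y = ρ1 y x := fun x y => by
      simp only [hρ1]
      rw [hρ.symm x y]
      congr 1
      exact Finset.sum_congr rfl fun j _ => abs_sub_comm _ _
    have ht1 : ∀ x y z, ρ1 x z ≤ ρ1 x y + ρ1 y z := fun x y z => by
      simp only [hρ1]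
      have e1 := hρ.triangle x y z
      have e2 : ∑ j, |f j x - f j z| ≤ ∑ j, |f j x - f j y| + ∑ j, |f j y - f j z| := by
        rw [← Finset.sum_add_distrib]
        exact Finset.sum_le_sum fun j _ => abs_sub_le _ _ _
      linarith
    have hB1 : ∀ x y, ρ1 x y ≤ Bρ + ∑ j, 2 * ‖f j‖ := fun x y => by
      simp only [hρ1]
      have e2 : ∑ j, |f j x - f j y| ≤ ∑ j, 2 * ‖f j‖ := by
        refine Finset.sum_le_sum fun j _ => ?_
        have e3 := (f j).norm_coe_le_norm x
        have e4 := (f j).norm_coe_le_norm y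
        have e5 := norm_sub_le (f j x) (f j y)
        rw [Real.norm_eq_abs] at e5
        linarith
      linarith [hBρ x y]
    have hc1 : Continuous (fun z : X × X => ρ1 z.1 z.2) := by
      simp only [hρ1]
      refine hρ.continuous.add (continuous_finsetSum _ fun j _ => ?_)
      exact (((f j).continuous.comp continuous_fst).sub ((f j).continuous.comp continuous_snd)).abs
    have hle1 : ∀ x y, ρ x y ≤ ρ1 x y := fun x y => by
      simp only [hρ1]
      have : 0 ≤ ∑ j, |f j x - f j y| := Finset.sum_nonneg fun j _ => abs_nonneg _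
      linarith
    have hfle1 : ∀ j x y, |f j x - f j y| ≤ ρ1 x y := fun j x y => by
      simp only [hρ1]
      have e1 : |f j x - f j y| ≤ ∑ j, |f j x - f j y| :=
        Finset.single_le_sum (f := fun j => |f j x - f j y|) (fun j _ => abs_nonneg _)
          (Finset.mem_univ j)
      linarith [hnn x y]
    set ρ' : X → X → ℝ := supK Γ ρ1 with hρ'
    set B' : ℝ := Bρ + ∑ j, 2 * ‖f j‖ with hB'
    have h0' : ∀ x, ρ' x x = 0 := supK_self h01 hB1
    have hs' : ∀ x y, ρ' x y = ρ' y x := supK_symm hs1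
    have ht' : ∀ x y z, ρ' x z ≤ ρ' x y + ρ' y z := supK_triangle ht1 hB1
    have hBB' : ∀ x y, ρ' x y ≤ B' := fun x y => supK_le fun κ => hB1 _ _
    have hc' : Continuous (fun z : X × X => ρ' z.1 z.2) := supK_continuous hc1
    have hK' : ∀ (k : KK Γ) (x y : X), ρ' (ik k • x) (ik k • y) = ρ' x y := supK_inv hB1
    have hle' : ∀ x y, ρ x y ≤ ρ' x y := fun x y => (hle1 x y).trans (le_supK' hB1 x y)
    have hfle' : ∀ j x y, |f j x - f j y| ≤ ρ' x y := fun j x y =>
      (hfle1 j x y).trans (le_supK' hB1 x y)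
    have hnn' : ∀ x y, 0 ≤ ρ' x y := fun x y => (hnn x y).trans (hle' x y)
    -- the parameters
    set δ₂ : ℝ := min δ (min (η / 4) (c / (64 * (E.card + 1)))) with hδ₂
    have hδ₂0 : 0 < δ₂ := lt_min hδ (lt_min (by positivity) (by positivity))
    have hδ₂1 : δ₂ ≤ δ := min_le_left _ _
    have hδ₂2 : 4 * δ₂ ≤ η := by
      have : δ₂ ≤ η / 4 := (min_le_right _ _).trans (min_le_left _ _)
      linarith
    have hδ₂3 : δ₂ ≤ c / (64 * (E.card + 1)) := (min_le_right _ _).trans (min_le_right _ _)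
    -- the compact set
    set U2 : Set (GG Γ) := U ∪ (E : Set (GG Γ)) ∪ range (ik : KK Γ → GG Γ) with hU2
    have hU2c : IsCompact (closure U2) := by
      have e1 : IsCompact (closure U ∪ closure (E : Set (GG Γ)) ∪
          closure (range (ik : KK Γ → GG Γ))) := by
        have e2 : IsCompact (range (ik : KK Γ → GG Γ)) := isCompact_range continuous_ik
        exact (hU.2.union (E.finite_toSet.isCompact.closure)).union e2.closure
      rw [hU2, closure_union, closure_union]
      exact e1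
    obtain ⟨U', δ', O', hU'o, hU'c, hδ', hO'o, hμO', hmain⟩ :=
      hP (GG Γ) X μ ρ ρ' hρ h0' hnn' ⟨B', hBB'⟩ hc' U2 hU2c δ₂ hδ₂0
    set O2 : Set (ProbabilityMeasure X) := O' ∩
      ⋂ j, {κ : ProbabilityMeasure X | |∫ y, f j y ∂(κ : Measure X) -
        ∫ y, f j y ∂(μ : Measure X)| < η / 2} with hO2
    have hO2o : IsOpen O2 := by
      refine hO'o.inter (isOpen_iInter_of_finite fun j => ?_)
      refine isOpen_lt ?_ continuous_const
      refine Continuous.abs (Continuous.sub ?_ continuous_const)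
      rw [continuous_iff_continuousAt]
      intro κ
      exact (ProbabilityMeasure.tendsto_iff_forall_integral_tendsto.mp tendsto_id) (f j)
    have hμO2 : μ ∈ O2 := by
      refine ⟨hμO', mem_iInter.mpr fun j => ?_⟩
      show |_ - _| < η / 2
      rw [sub_self, abs_zero]
      positivity
    refine le_limsup_of_frequently_le ?_ (by isBoundedDefault)
    refine (hfreq O2 hO2o hμO2 U' hU'o hU'c δ' hδ').mono fun n hn => ?_
    obtain ⟨φ, hφ⟩ := hn
    have h1 := hFT n
    have hN : 0 < Fintype.card (V n) := Fintype.card_pos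
    have hN' : (0 : ℝ) < Fintype.card (V n) := by exact_mod_cast hN
    have hV0 : vol Γ (V n) univ ≠ 0 := by
      intro h
      have h1 := vol_univ (Γ := Γ) (V := V n)
      rw [h, ENNReal.toReal_zero] at h1
      linarith
    have hφ' : φ ∈ Map (mod Γ (V n)) (vol Γ (V n)) ρ U' δ' O' := by
      refine ⟨hφ.1, hφ.2.1, ?_⟩
      obtain ⟨κ, hκ, hκ'⟩ := hφ.2.2
      exact ⟨κ, hκ.1, hκ'⟩
    have herr : ∀ g ∈ U2, ∫ p, ρ' (φ (act g p)) (g • φ p) ∂(vol Γ (V n)) <
        δ₂ * Fintype.card (V n) := by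
      intro g hg
      have e1 := hmain (KK Γ × V n) (mod Γ (V n)) (vol Γ (V n)) hV0 rfl
        (fun g => mp_act (V := V n) g) φ hφ' g hg
      rw [vol_univ, div_lt_iff₀ hN'] at e1
      exact e1
    have hlaw : ∀ j, |∫ p, f j (φ p) ∂(vol Γ (V n)) -
        (∫ y, f j y ∂(μ : Measure X)) * Fintype.card (V n)| < η / 2 * Fintype.card (V n) := by
      intro j
      obtain ⟨κ, hκ, hκ'⟩ := hφ.2.2
      have e1 := mem_iInter.mp hκ.2 j
      have e2 : |∫ y, f j y ∂(κ : Measure X) - ∫ y, f j y ∂(μ : Measure X)| < η / 2 := e1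
      have e3 : ∫ y, f j y ∂(κ : Measure X) =
          (Fintype.card (V n) : ℝ)⁻¹ * ∫ p, f j (φ p) ∂(vol Γ (V n)) := by
        rw [hκ', integral_smul_measure, integral_map hφ.1.aemeasurable
          (f j).continuous.measurable.aestronglyMeasurable, ENNReal.toReal_inv, vol_univ,
          smul_eq_mul]
      have e4 : ∫ p, f j (φ p) ∂(vol Γ (V n)) -
          (∫ y, f j y ∂(μ : Measure X)) * Fintype.card (V n) =
          (∫ y, f j y ∂(κ : Measure X) - ∫ y, f j y ∂(μ : Measure X)) * Fintype.card (V n) := by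
        rw [e3]
        field_simp
      rw [e4, abs_mul, abs_of_pos hN']
      exact mul_lt_mul_of_pos_right e2 hN'
    obtain ⟨C, hC0, hCd, hCl⟩ := hC (V n) m
    have hlev := level hρ hBρ (μ := μ) (O := O) (U := U) (δ := δ) (m := m) (E := E) hc0 hA hAE
      hηO h0' hs' ht' hBB' hc' hK' hle' hfle' hδ₂1 hδ₂2 hδ₂3 hδ₂0 hN hφ.1
      (fun g hg => herr g (Or.inl (Or.inl hg))) (fun g hg => herr g (Or.inl (Or.inr hg)))
      (fun k => herr (ik k) (Or.inr ⟨k, rfl⟩)) hlaw hC0 hCd
    have h2 : (((m : ℝ) / 2 * Real.log 2 - 1 : ℝ) : EReal) ≤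
        ((Real.log C.card / Fintype.card (V n) : ℝ) : EReal) := by
      rw [EReal.coe_le_coe_iff, le_div_iff₀ hN', mul_comm]
      exact hCl
    refine h2.trans ?_
    rw [EReal.coe_div, vol_univ]
    exact EReal.div_le_div_right_of_nonneg (by exact_mod_cast hN'.le) hlev
  rw [EReal.eq_top_iff_forall_lt]
  intro y
  obtain ⟨m, hm⟩ := exists_nat_gt ((y + 1) * 2 / Real.log 2)
  refine lt_of_lt_of_le ?_ (hlow m)
  rw [EReal.coe_lt_coe_iff]
  have h2 : 0 < Real.log 2 := Real.log_pos (by norm_num)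
  rw [div_lt_iff₀ h2] at hm
  linarith

end Pool.Agent.Y316.EV
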