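import Pool.Agent.Y316.EV.Stm

set_option autoImplicit false
set_option linter.unusedSectionVars false

/-!
# Twisting by code words: approximate equivariance and law
-/

namespace Pool.Agent.Y316.EV

open MeasureTheory Set Filter Topology Pool.Agent.Y316.PC
open scoped ENNReal NNReal

section vol

variable {Γ : Type} [Countable Γ] {V : Type} [MeasurableSpace V] [DiscreteMeasurableSpace V]

instance [Finite V] : IsFiniteMeasure (vol Γ V) :=
  inferInstanceAs (IsFiniteMeasure ((haarK Γ).prod (Measure.count : Measure V)))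

theorem int_vol [Fintype V] {h : KK Γ × V → ℝ} (hm : Measurable h) {B : ℝ}
    (hB : ∀ p, |h p| ≤ B) :
    ∫ p, h p ∂(vol Γ V) = ∑ v, ∫ k, h (k, v) ∂(haarK Γ) := by
  have hi : Integrable h ((haarK Γ).prod (Measure.count : Measure V)) :=
    Integrable.of_bound hm.aestronglyMeasurable B (Eventually.of_forall fun p => by
      rw [Real.norm_eq_abs]; exact hB p)
  unfold vol
  rw [integral_prod_symm h hi, integral_count]

theorem vol_univ [Fintype V] : (vol Γ V univ).toReal = Fintype.card V := by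
  unfold vol
  rw [← univ_prod_univ, Measure.prod_prod, measure_univ, one_mul, Measure.count_univ]
  simp

end vol

section act

variable {Γ : Type} [Group Γ] {V : Type} [MulAction Γ V]

theorem act_ik (κ : KK Γ) (p : KK Γ × V) : act (ik κ) p = (κ + p.1, p.2) := by
  unfold act ik
  rw [sh_one, one_smul]

theorem kap_smul {m : ℕ} (a : V → Fin m → ZMod 2) (γ : Γ) (v : V) :
    (kap a (γ • v) : KK Γ) = sh γ (kap a v) := by
  funext z
  show (if h : z.2 < m then a (z.1⁻¹ • γ • v) ⟨z.2, h⟩ else 0) =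
    if h : z.2 < m then a ((γ⁻¹ * z.1)⁻¹ • v) ⟨z.2, h⟩ else 0
  rw [mul_inv_rev, inv_inv, mul_smul]

theorem smul_ik {X : Type} [MulAction (GG Γ) X] (g : GG Γ) (κ : KK Γ) (x : X) :
    g • ik κ • x = ik (sh g.2 κ) • g • x := by
  rw [← mul_smul, ← mul_smul, mul_ik]

theorem measurable_act [Countable Γ] [MeasurableSpace V] [DiscreteMeasurableSpace V] [Countable V]
    (g : GG Γ) : Measurable (act g : KK Γ × V → KK Γ × V) := by
  refine Measurable.prodMk ?_ ?_
  · exact ((measurable_sh g.2).comp measurable_fst).const_add g.1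
  · exact (Measurable.of_discrete (f := fun v : V => g.2 • v)).comp measurable_snd

theorem continuous_ik [TopologicalSpace Γ] : Continuous (ik : KK Γ → GG Γ) :=
  (continuous_id.prodMk continuous_const : Continuous (fun k : KK Γ => ((k, (1 : Γ)) : KK Γ × Γ)))

end act

section law

variable {Γ : Type} [Group Γ] [Countable Γ] [TopologicalSpace Γ] [DiscreteTopology Γ]
  {V : Type} [MulAction Γ V] [Fintype V]
  [MeasurableSpace V] [DiscreteMeasurableSpace V]
  {X : Type} [TopologicalSpace X] [PolishSpace X] [MeasurableSpace X] [BorelSpace X]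
  [MulAction (GG Γ) X] [ContinuousSMul (GG Γ) X] {ρ' : X → X → ℝ} {B : ℝ}

omit [Group Γ] [TopologicalSpace Γ] [DiscreteTopology Γ] [Countable Γ] in
theorem add_self_KK (κ : KK Γ) : κ + κ = 0 := by
  funext z
  show κ z + κ z = 0
  exact CharTwo.add_self_eq_zero (κ z)

/-- the error of a map `ψ : K → X` at `κ` -/
noncomputable def er (ρ' : X → X → ℝ) (ψ : KK Γ → X) (κ : KK Γ) : ℝ :=
  ∫ k, ρ' (ψ (κ + k)) (ik κ • ψ k) ∂(haarK Γ)

theorem meas_er (hc : Continuous (fun z : X × X => ρ' z.1 z.2)) {ψ : KK Γ → X}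
    (hψ : Measurable ψ) :
    Measurable (fun z : KK Γ × KK Γ => ρ' (ψ (z.1 + z.2)) (ik z.1 • ψ z.2)) := by
  have h1 : Measurable (fun z : KK Γ × KK Γ => ψ (z.1 + z.2)) :=
    hψ.comp (measurable_fst.add measurable_snd)
  have h2 : Measurable (fun z : KK Γ × KK Γ => ik z.1 • ψ z.2) := by
    have h3 : Continuous (fun w : KK Γ × X => ik w.1 • w.2) :=
      (continuous_ik.comp continuous_fst).smul continuous_snd
    exact h3.measurable.comp (measurable_fst.prodMk (hψ.comp measurable_snd))
  exact hc.measurable.comp (h1.prodMk h2)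

theorem er_nonneg (hn : ∀ x y, 0 ≤ ρ' x y) (ψ : KK Γ → X) (κ : KK Γ) : 0 ≤ er ρ' ψ κ :=
  integral_nonneg fun _ => hn _ _

theorem er_add (hn : ∀ x y, 0 ≤ ρ' x y) (htr : ∀ x y z, ρ' x z ≤ ρ' x y + ρ' y z)
    (hB : ∀ x y, ρ' x y ≤ B) (hc : Continuous (fun z : X × X => ρ' z.1 z.2))
    (hK : ∀ (k : KK Γ) (x y : X), ρ' (ik k • x) (ik k • y) = ρ' x y) {ψ : KK Γ → X}
    (hψ : Measurable ψ) (κ κ' : KK Γ) : er ρ' ψ (κ + κ') ≤ er ρ' ψ κ + er ρ' ψ κ' := by
  have hint : ∀ {u w : KK Γ → X}, Measurable u → Measurable w →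
      Integrable (fun k => ρ' (u k) (w k)) (haarK Γ) := by
    intro u w hu hw
    refine Integrable.of_bound (hc.measurable.comp (hu.prodMk hw)).aestronglyMeasurable B
      (Eventually.of_forall fun p => ?_)
    rw [Real.norm_eq_abs, abs_of_nonneg (hn _ _)]
    exact hB _ _
  have hsm : ∀ κ : KK Γ, Measurable (fun x : X => ik κ • x) := fun κ =>
    (continuous_const_smul (ik κ)).measurable
  have h1 : er ρ' ψ κ = ∫ k, ρ' (ψ (κ + (κ' + k))) (ik κ • ψ (κ' + k)) ∂(haarK Γ) :=
    (integral_add_left_eq_self (fun k => ρ' (ψ (κ + k)) (ik κ • ψ k)) κ').symm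
  have h2 : er ρ' ψ κ' = ∫ k, ρ' (ik κ • ψ (κ' + k)) (ik κ • ik κ' • ψ k) ∂(haarK Γ) := by
    unfold er
    refine integral_congr_ae (Eventually.of_forall fun k => ?_)
    exact (hK κ _ _).symm
  rw [h1, h2, ← integral_add]
  · refine integral_mono ?_ ?_ fun k => ?_
    · exact hint (hψ.comp (measurable_const_add _)) ((hsm _).comp hψ)
    · refine Integrable.add ?_ ?_
      · exact hint (hψ.comp ((measurable_const_add _).comp (measurable_const_add _)))
          ((hsm _).comp (hψ.comp (measurable_const_add _)))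
      · exact hint ((hsm _).comp (hψ.comp (measurable_const_add _)))
          ((hsm _).comp ((hsm _).comp hψ))
    · have h3 := htr (ψ (κ + (κ' + k))) (ik κ • ψ (κ' + k)) (ik κ • ik κ' • ψ k)
      show ρ' (ψ (κ + κ' + k)) (ik (κ + κ') • ψ k) ≤ _
      rw [ik_add, mul_smul, add_assoc]
      exact h3
  · exact hint (hψ.comp ((measurable_const_add _).comp (measurable_const_add _)))
      ((hsm _).comp (hψ.comp (measurable_const_add _)))
  · exact hint ((hsm _).comp (hψ.comp (measurable_const_add _)))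
      ((hsm _).comp ((hsm _).comp hψ))

theorem integrable_er (hn : ∀ x y, 0 ≤ ρ' x y) (hB : ∀ x y, ρ' x y ≤ B)
    (hc : Continuous (fun z : X × X => ρ' z.1 z.2)) {ψ : KK Γ → X} (hψ : Measurable ψ) :
    Integrable (er ρ' ψ) (haarK Γ) := by
  have hm := (meas_er hc hψ).stronglyMeasurable
  refine Integrable.of_bound (C := B) hm.integral_prod_right'.aestronglyMeasurable
    (Eventually.of_forall fun κ => ?_)
  rw [Real.norm_eq_abs, abs_of_nonneg (er_nonneg hn ψ κ)]
  have h1 : er ρ' ψ κ ≤ ∫ _k, B ∂(haarK Γ) := by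
    refine integral_mono_of_nonneg (Eventually.of_forall fun _ => hn _ _) (integrable_const _)
      (Eventually.of_forall fun k => hB _ _)
  simpa using h1

theorem er_le (hn : ∀ x y, 0 ≤ ρ' x y) (htr : ∀ x y z, ρ' x z ≤ ρ' x y + ρ' y z)
    (hB : ∀ x y, ρ' x y ≤ B) (hc : Continuous (fun z : X × X => ρ' z.1 z.2))
    (hK : ∀ (k : KK Γ) (x y : X), ρ' (ik k • x) (ik k • y) = ρ' x y) {ψ : KK Γ → X}
    (hψ : Measurable ψ) (κ : KK Γ) : er ρ' ψ κ ≤ 2 * ∫ κ', er ρ' ψ κ' ∂(haarK Γ) := by
  have hi := integrable_er hn hB hc hψ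
  have h1 : ∫ _κ', er ρ' ψ κ ∂(haarK Γ) ≤
      ∫ κ', (er ρ' ψ κ' + er ρ' ψ (κ' + κ)) ∂(haarK Γ) := by
    refine integral_mono (integrable_const _) (hi.add (hi.comp_add_right κ)) fun κ' => ?_
    have h2 := er_add hn htr hB hc hK hψ κ' (κ' + κ)
    rwa [← add_assoc, add_self_KK, zero_add] at h2
  rw [integral_add hi (hi.comp_add_right κ), integral_add_right_eq_self (er ρ' ψ) κ] at h1
  simp only [integral_const, probReal_univ, smul_eq_mul, one_mul] at h1
  linarith

theorem law_aux (hn : ∀ x y, 0 ≤ ρ' x y) (htr : ∀ x y z, ρ' x z ≤ ρ' x y + ρ' y z)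
    (hB : ∀ x y, ρ' x y ≤ B) (hc : Continuous (fun z : X × X => ρ' z.1 z.2))
    (hK : ∀ (k : KK Γ) (x y : X), ρ' (ik k • x) (ik k • y) = ρ' x y) {φ : KK Γ × V → X}
    (hφ : Measurable φ) {δ : ℝ}
    (hδ : ∀ k : KK Γ, ∫ p, ρ' (φ (act (ik k) p)) (ik k • φ p) ∂(vol Γ V) ≤ δ) (κ : V → KK Γ) :
    ∑ v, er ρ' (fun k => φ (k, v)) (κ v) ≤ 2 * δ := by
  have hψ : ∀ v, Measurable (fun k : KK Γ => φ (k, v)) := fun v =>
    hφ.comp (measurable_id.prodMk measurable_const)
  have h1 : ∀ k : KK Γ, ∑ v, er ρ' (fun k => φ (k, v)) k ≤ δ := by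
    intro k
    have hm : Measurable (fun p : KK Γ × V => ρ' (φ (act (ik k) p)) (ik k • φ p)) :=
      hc.measurable.comp ((hφ.comp (measurable_act _)).prodMk
        ((continuous_const_smul (ik k)).measurable.comp hφ))
    have h2 := int_vol (h := fun p : KK Γ × V => ρ' (φ (act (ik k) p)) (ik k • φ p)) hm (B := B)
      (fun p => by rw [abs_of_nonneg (hn _ _)]; exact hB _ _)
    have h3 := hδ k
    rw [h2] at h3
    refine le_trans (le_of_eq ?_) h3
    refine Finset.sum_congr rfl fun v _ => ?_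
    unfold er
    refine integral_congr_ae (Eventually.of_forall fun k' => ?_)
    show ρ' (φ (k + k', v)) (ik k • φ (k', v)) = ρ' (φ (act (ik k) (k', v))) (ik k • φ (k', v))
    rw [act_ik]
  have h4 : ∫ k, ∑ v, er ρ' (fun k => φ (k, v)) k ∂(haarK Γ) ≤ ∫ _k, δ ∂(haarK Γ) :=
    integral_mono (integrable_finsetSum _ fun v _ => integrable_er hn hB hc (hψ v))
      (integrable_const _) h1
  rw [integral_finsetSum _ fun v _ => integrable_er hn hB hc (hψ v)] at h4
  simp only [integral_const, probReal_univ, smul_eq_mul, one_mul] at h4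
  calc ∑ v, er ρ' (fun k => φ (k, v)) (κ v)
      ≤ ∑ v, 2 * ∫ κ', er ρ' (fun k => φ (k, v)) κ' ∂(haarK Γ) :=
        Finset.sum_le_sum fun v _ => er_le hn htr hB hc hK (hψ v) (κ v)
    _ = 2 * ∑ v, ∫ κ', er ρ' (fun k => φ (k, v)) κ' ∂(haarK Γ) := by rw [Finset.mul_sum]
    _ ≤ 2 * δ := by linarith

theorem meas_twist {φ : KK Γ × V → X} (hφ : Measurable φ) {m : ℕ} (a : V → Fin m → ZMod 2) :
    Measurable (fun p : KK Γ × V => ik (kap a p.2 : KK Γ) • φ p) := by
  refine measurable_from_prod_countable_left fun v => ?_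
  exact (continuous_const_smul (ik (kap a v : KK Γ))).measurable.comp
    (hφ.comp (measurable_id.prodMk measurable_const))

end law

theorem law : S_LAW := by
  intro Γ _ _ _ _ V _ _ _ _ _ _ X _ _ _ _ _ _ ρ' B h0 hs htr hB hc hK φ hφ δ hδ m a
  have := Fintype.ofFinite V
  have hn : ∀ x y, 0 ≤ ρ' x y := by
    intro x y
    have h1 := htr x y x
    rw [h0, hs y x] at h1
    linarith
  refine ⟨meas_twist hφ a, fun g => ?_, fun f hf hfr => ?_⟩
  · refine integral_congr_ae (Eventually.of_forall fun p => ?_)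
    show ρ' (ik (kap a (g.2 • p.2) : KK Γ) • φ (act g p)) (g • ik (kap a p.2 : KK Γ) • φ p) =
      ρ' (φ (act g p)) (g • φ p)
    rw [smul_ik, kap_smul, hK]
  · have hψ : ∀ v, Measurable (fun k : KK Γ => φ (k, v)) := fun v =>
      hφ.comp (measurable_id.prodMk measurable_const)
    rcases isEmpty_or_nonempty V with hV | hV
    · have h1 : IsEmpty (KK Γ × V) := ⟨fun p => hV.false p.2⟩
      rw [integral_of_isEmpty, integral_of_isEmpty, sub_zero, abs_zero]
      have h2 := hδ 0
      rw [integral_of_isEmpty] at h2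
      linarith
    obtain ⟨v0⟩ := hV
    set x0 : X := φ (0, v0) with hx0
    have hfb : ∀ x, |f x| ≤ |f x0| + B := by
      intro x
      have h1 := hfr x x0
      have h2 := hB x x0
      have h3 : |f x| ≤ |f x - f x0| + |f x0| := by
        have := abs_add_le (f x - f x0) (f x0)
        rwa [sub_add_cancel] at this
      linarith
    have hint : ∀ {u : KK Γ → X}, Measurable u → Integrable (fun k => f (u k)) (haarK Γ) := by
      intro u hu
      refine Integrable.of_bound (hf.measurable.comp hu).aestronglyMeasurable (|f x0| + B)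
        (Eventually.of_forall fun p => ?_)
      rw [Real.norm_eq_abs]
      exact hfb _
    have hsm : ∀ κ : KK Γ, Measurable (fun x : X => ik κ • x) := fun κ =>
      (continuous_const_smul (ik κ)).measurable
    rw [int_vol (h := fun p : KK Γ × V => f (ik (kap a p.2 : KK Γ) • φ p))
        (hf.measurable.comp (meas_twist hφ a)) (fun p => hfb _),
      int_vol (h := fun p : KK Γ × V => f (φ p)) (hf.measurable.comp hφ) (fun p => hfb _),
      ← Finset.sum_sub_distrib]
    refine (Finset.abs_sum_le_sum_abs _ _).trans ?_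
    refine le_trans (Finset.sum_le_sum fun v _ => ?_)
      (law_aux hn htr hB hc hK hφ hδ (fun v => kap a v))
    have h1 : ∫ k, f (φ (k, v)) ∂(haarK Γ) =
        ∫ k, f (φ ((kap a v : KK Γ) + k, v)) ∂(haarK Γ) :=
      (integral_add_left_eq_self (fun k => f (φ (k, v))) (kap a v : KK Γ)).symm
    have h2 : Measurable (fun k : KK Γ => φ ((kap a v : KK Γ) + k, v)) :=
      hφ.comp ((measurable_const_add _).prodMk measurable_const)
    rw [h1, ← integral_sub]
    · refine (abs_integral_le_integral_abs).trans ?_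
      unfold er
      refine integral_mono_of_nonneg (Eventually.of_forall fun _ => abs_nonneg _) ?_
        (Eventually.of_forall fun k => ?_)
      · refine Integrable.of_bound (C := B) (hc.measurable.comp
          (h2.prodMk ((hsm _).comp (hψ v)))).aestronglyMeasurable
          (Eventually.of_forall fun p => ?_)
        rw [Real.norm_eq_abs, abs_of_nonneg (hn _ _)]
        exact hB _ _
      · show |f (ik (kap a v : KK Γ) • φ (k, v)) - f (φ ((kap a v : KK Γ) + k, v))| ≤ _
        rw [abs_sub_comm]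
        exact hfr _ _
    · exact hint (u := fun k => ik (kap a v : KK Γ) • φ (k, v)) ((hsm (kap a v)).comp (hψ v))
    · exact hint h2

end Pool.Agent.Y316.EV
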