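import Pool.Agent.Y316.EV.Law

set_option autoImplicit false
set_option linter.unusedSectionVars false

/-!
# The `K`-invariant supremum of a pseudometric; the action preserves the volume
-/

namespace Pool.Agent.Y316.EV

open MeasureTheory Set Filter Topology Pool.Agent.Y316.PC
open scoped ENNReal NNReal

section sup

variable {Γ : Type} [Group Γ] [Countable Γ] [TopologicalSpace Γ]
  {X : Type} [TopologicalSpace X] [MulAction (GG Γ) X] [ContinuousSMul (GG Γ) X]

/-- the supremum of the translates of a pseudometric by `K` -/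
noncomputable def supK (Γ : Type) [Group Γ] {X : Type} [MulAction (GG Γ) X] (ρ : X → X → ℝ)
    (x y : X) : ℝ :=
  sSup ((fun κ : KK Γ => ρ (ik κ • x) (ik κ • y)) '' univ)

variable {ρ : X → X → ℝ} {B : ℝ}

theorem supK_bdd (hB : ∀ x y, ρ x y ≤ B) (x y : X) :
    BddAbove ((fun κ : KK Γ => ρ (ik κ • x) (ik κ • y)) '' univ) := by
  refine ⟨B, ?_⟩
  rintro _ ⟨κ, -, rfl⟩
  exact hB _ _

theorem le_supK (hB : ∀ x y, ρ x y ≤ B) (κ : KK Γ) (x y : X) :
    ρ (ik κ • x) (ik κ • y) ≤ supK Γ ρ x y :=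
  le_csSup (supK_bdd hB x y) ⟨κ, mem_univ _, rfl⟩

theorem le_supK' (hB : ∀ x y, ρ x y ≤ B) (x y : X) : ρ x y ≤ supK Γ ρ x y := by
  have h := le_supK (Γ := Γ) hB 0 x y
  rwa [ik_zero, one_smul, one_smul] at h

theorem supK_le {x y : X} {r : ℝ} (h : ∀ κ : KK Γ, ρ (ik κ • x) (ik κ • y) ≤ r) :
    supK Γ ρ x y ≤ r := by
  refine csSup_le ⟨_, (0 : KK Γ), mem_univ _, rfl⟩ ?_
  rintro _ ⟨κ, -, rfl⟩
  exact h κ

theorem supK_self (h0 : ∀ x, ρ x x = 0) (hB : ∀ x y, ρ x y ≤ B) (x : X) : supK Γ ρ x x = 0 :=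
  le_antisymm (supK_le fun κ => (h0 _).le) ((h0 x).symm.le.trans (le_supK' hB x x))

theorem supK_symm (hs : ∀ x y, ρ x y = ρ y x) (x y : X) : supK Γ ρ x y = supK Γ ρ y x := by
  unfold supK
  congr 1
  refine image_congr fun κ _ => hs _ _

theorem supK_triangle (ht : ∀ x y z, ρ x z ≤ ρ x y + ρ y z) (hB : ∀ x y, ρ x y ≤ B) (x y z : X) :
    supK Γ ρ x z ≤ supK Γ ρ x y + supK Γ ρ y z :=
  supK_le fun κ => (ht _ (ik κ • y) _).trans (add_le_add (le_supK hB κ x y) (le_supK hB κ y z))

theorem supK_continuous (hc : Continuous (fun z : X × X => ρ z.1 z.2)) :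
    Continuous (fun z : X × X => supK Γ ρ z.1 z.2) := by
  have h1 : Continuous (fun w : (X × X) × KK Γ => ρ (ik w.2 • w.1.1) (ik w.2 • w.1.2)) := by
    refine hc.comp (Continuous.prodMk ?_ ?_)
    · exact (continuous_ik.comp continuous_snd).smul (continuous_fst.comp continuous_fst)
    · exact (continuous_ik.comp continuous_snd).smul (continuous_snd.comp continuous_fst)
  exact IsCompact.continuous_sSup (f := fun (z : X × X) (κ : KK Γ) => ρ (ik κ • z.1) (ik κ • z.2))
    isCompact_univ h1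

theorem supK_inv (hB : ∀ x y, ρ x y ≤ B) (κ : KK Γ) (x y : X) :
    supK Γ ρ (ik κ • x) (ik κ • y) = supK Γ ρ x y := by
  have h1 : ∀ (κ : KK Γ) (x y : X), supK Γ ρ (ik κ • x) (ik κ • y) ≤ supK Γ ρ x y := by
    intro κ x y
    refine supK_le fun κ' => ?_
    rw [← mul_smul, ← mul_smul, ← ik_add]
    exact le_supK hB _ x y
  refine le_antisymm (h1 κ x y) ?_
  have h2 := h1 κ (ik κ • x) (ik κ • y)
  rwa [← mul_smul, ← mul_smul, ← ik_add, add_self_KK, ik_zero, one_smul, one_smul] at h2

end sup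

section mp

variable {Γ : Type} [Group Γ] [Countable Γ] {V : Type} [MulAction Γ V] [Finite V]
  [MeasurableSpace V] [DiscreteMeasurableSpace V]

theorem mp_act (g : GG Γ) : MeasurePreserving (act g) (vol Γ V) (vol Γ V) := by
  have h1 : MeasurePreserving (fun k : KK Γ => g.1 + sh g.2 k) (haarK Γ) (haarK Γ) :=
    (measurePreserving_add_left (haarK Γ) g.1).comp (measurePreserving_sh g.2)
  have h2 : MeasurePreserving (fun v : V => g.2 • v) (Measure.count : Measure V)
      (Measure.count : Measure V) := by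
    refine ⟨Measurable.of_discrete, ?_⟩
    ext s hs
    rw [Measure.map_apply Measurable.of_discrete hs, Measure.count_apply hs,
      Measure.count_apply (MeasurableSet.of_discrete)]
    congr 1
    exact Set.encard_preimage_of_bijective (MulAction.bijective g.2) s
  exact h1.prod h2

end mp

/-- lower semicontinuity of the measure of an open set -/
theorem isOpen_lt_measure {X : Type} [TopologicalSpace X] [MeasurableSpace X]
    [OpensMeasurableSpace X] [HasOuterApproxClosed X] {A : Set X} (hA : IsOpen A) (r : ℝ≥0∞) :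
    IsOpen {κ : ProbabilityMeasure X | r < (κ : Measure X) A} := by
  rw [isOpen_iff_mem_nhds]
  intro κ hκ
  have h1 := ProbabilityMeasure.le_liminf_measure_open_of_tendsto
    (tendsto_id (α := ProbabilityMeasure X) (x := 𝓝 κ)) hA
  exact eventually_lt_of_lt_liminf (lt_of_lt_of_le hκ h1)

end Pool.Agent.Y316.EV
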